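import Pool.Agent.T2H66.CF.Defs

/-!
# Package CN1: decided and undecided classes

All proofs are short. Notation: `U, V, W ∈ S.UU`; `Cl U x y` means that `x w - y w ∈ U` off a
negligible set (a set which is `δ`-small for all `δ > 0`); `Dec S f U a v`: all `X i` with
`Cl U (X i) a` have `f i = v`. By `S.dens` (with a constant sequence `U n = U`) there is such an `i`
for all `a ∈ AA`.

* `cl_mono`: clear. `cl_add`: union of two negligible sets (`Sm.union` with `δ/2`, `δ/2`),
  `x - z = (x - y) + (y - z)`.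
* `Dec.mono`: clear. `Dec.uniq`: take `i` with `Cl W (X i) a` where `W ⊆ U`, `W ⊆ U'`.
* `Dec.shift`: `cl_add`.
* `dec_X`: the `U` of the local constancy `hf i` (a negligible set is `δ`-small).
* `eq_of_near`: let `U₀, δ₀` be from `hf i`. Apply `h` with `δ = δ₀/2`, get `U V a`. Let
  `D = {w | X i w - a w ∈ V}` and `a' = pcw D (X i) a`. Then `a' - a ∈ V` everywhere (off `D` it is
  `0`), so `Cl V a' a` and `Dec V a' v` by `Dec.shift`. Let `W ⊆ V ∩ U₀` in `UU` and `i'` with
  `Cl W (X i') a'`; then `f i' = v`. The set of `w` with `X i' w - X i w ∉ U₀` is contained in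
  `{X i' - a' ∉ W} ∪ Dᶜ`, which is `δ₀/2 + δ₀/2`-small; so `f i' = f i`.
* `exists_undec`: let `as s = pcw (Ch s) a1 a0`; `as 0 = a0`, `as 1 = a1` (`ch_zero`, `ch_one`).
  Suppose that all `as s`, `s : ℝ`, are decided at `V`, `Dec V (as s) (g s)` (choose `g`). Then
  `g 0 = v0` and `g 1 = v1` (`Dec.mono`, `Dec.uniq`). `g : ℝ → Bool` is locally constant: fix `s`,
  take `V' ∈ UU` with `V' + V' ⊆ V` and `i` with `Cl V' (X i) (as s)`; then `f i = g s` (note that
  `V' ⊆ V` since `0 ∈ V'`). By the contrapositive of `eq_of_near` with `v = !(f i)` there is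
  `δ > 0` such that for all `U V' a` with `V' + V' ⊆ U` and `Dec U a (!(f i))` the set
  `{X i - a ∉ V'}` is not `δ`-small. If `|s' - s| < δ/2` then `{X i - as s' ∉ V'}` is contained in
  `{X i - as s ∉ V'} ∪ (Ch s' \ Ch s) ∪ (Ch s \ Ch s')`, which is `δ/2 + δ/2`-small; hence
  `¬ Dec V (as s') (!(f i))` and `g s' = f i = g s`. As `ℝ` is connected, `g` is constant
  (`IsLocallyConstant.apply_eq_of_isPreconnected` or `IsLocallyConstant.iff_eventually_eq`).
-/

set_option autoImplicit false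

open Filter Topology Set

namespace Pool.Agent.T2H66.CF

variable {L ι : Type} [AddCommGroup L]

theorem cl_mono {U V : Set L} {x y : Om → L} (h : U ⊆ V) (hx : Cl U x y) : Cl V x y :=
  fun δ hδ => (hx δ hδ).mono (fun _ hw hw' => hw (h hw')) le_rfl

theorem cl_add {U V W : Set L} {x y z : Om → L} (h : ∀ a ∈ U, ∀ b ∈ V, a + b ∈ W)
    (h1 : Cl U x y) (h2 : Cl V y z) : Cl W x z := by
  intro δ hδ
  refine ((h1 (δ / 2) (by linarith)).union (h2 (δ / 2) (by linarith))).mono ?_ (by linarith)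
  intro w hw
  by_contra hc
  simp only [Set.mem_union, Set.mem_ofPred_eq, not_or, not_not] at hc
  apply hw
  have := h _ hc.1 _ hc.2
  rwa [sub_add_sub_cancel] at this

/-- there is an index close to `a` -/
theorem exists_close (S : Sys L ι) {a : Om → L} (ha : a ∈ S.AA) {U : Set L} (hU : U ∈ S.UU) :
    ∃ i, Cl U (S.X i) a := by
  obtain ⟨i, hi⟩ := S.dens a ha (fun _ => U) (fun _ => hU)
  exact ⟨i, hi 0⟩

theorem Dec.mono {S : Sys L ι} {f : ι → Bool} {U V : Set L} {a : Om → L} {v : Bool}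
    (h : Dec S f U a v) (hVU : V ⊆ U) : Dec S f V a v :=
  fun i hi => h i (cl_mono hVU hi)

theorem Dec.uniq {S : Sys L ι} {f : ι → Bool} {U U' : Set L} {a : Om → L} {v v' : Bool}
    (ha : a ∈ S.AA) (hU : U ∈ S.UU) (hU' : U' ∈ S.UU) (h : Dec S f U a v)
    (h' : Dec S f U' a v') : v = v' := by
  obtain ⟨W, hW, h1, h2⟩ := S.inter U hU U' hU'
  obtain ⟨i, hi⟩ := exists_close S ha hW
  exact (h i (cl_mono h1 hi)).symm.trans (h' i (cl_mono h2 hi))

theorem Dec.shift {S : Sys L ι} {f : ι → Bool} {U V : Set L} {a a' : Om → L} {v : Bool}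
    (hVU : ∀ x ∈ V, ∀ y ∈ V, x + y ∈ U) (h : Cl V a' a) (hd : Dec S f U a v) :
    Dec S f V a' v :=
  fun i hi => hd i (cl_add hVU hi h)

theorem dec_X (S : Sys L ι) {f : ι → Bool} (hf : LC S f) (i : ι) :
    ∃ U ∈ S.UU, Dec S f U (S.X i) (f i) := by
  obtain ⟨U, hU, δ, hδ, h⟩ := hf i
  exact ⟨U, hU, fun i' hi' => h i' (hi' δ hδ)⟩

theorem eq_of_near (S : Sys L ι) {f : ι → Bool} (hf : LC S f) (i : ι) (v : Bool)
    (h : ∀ δ : ℝ, 0 < δ → ∃ U ∈ S.UU, ∃ V ∈ S.UU, ∃ a ∈ S.AA, (∀ x ∈ V, ∀ y ∈ V, x + y ∈ U) ∧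
      Dec S f U a v ∧ Sm {w | S.X i w - a w ∉ V} δ) : f i = v := by
  obtain ⟨U0, hU0, δ0, hδ0, hl⟩ := hf i
  obtain ⟨U, hU, V, hV, a, ha, hVU, hd, hs⟩ := h (δ0 / 2) (by linarith)
  set D : Set Om := {w | S.X i w - a w ∈ V} with hD
  have ha' : pcw D (S.X i) a ∈ S.AA := S.pw D _ _ (S.X_mem i) ha
  have hc : Cl V (pcw D (S.X i) a) a := by
    intro δ hδ
    refine (Sm.empty hδ.le).mono ?_ le_rfl
    intro w hw
    exfalso
    apply hw
    by_cases hwD : w ∈ D
    · rw [pcw_pos hwD]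
      exact hwD
    · rw [pcw_neg hwD, sub_self]
      exact S.zero_mem V hV
  have hd' : Dec S f V (pcw D (S.X i) a) v := Dec.shift hVU hc hd
  obtain ⟨W, hW, hW1, hW2⟩ := S.inter V hV U0 hU0
  obtain ⟨i', hi'⟩ := exists_close S ha' hW
  have h1 : f i' = v := hd' i' (cl_mono hW1 hi')
  have h2 : f i' = f i := by
    apply hl
    refine ((hi' (δ0 / 2) (by linarith)).union hs).mono ?_ (by linarith)
    intro w hw
    by_contra hc'
    simp only [Set.mem_union, Set.mem_ofPred_eq, not_or, not_not] at hc'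
    apply hw
    have hwD : w ∈ D := hc'.2
    have h3 := hc'.1
    rw [pcw_pos hwD] at h3
    exact hW2 h3
  exact h2.symm.trans h1

theorem exists_undec (S : Sys L ι) {f : ι → Bool} (hf : LC S f) {U V : Set L} {a0 a1 : Om → L}
    {v0 v1 : Bool} (ha0 : a0 ∈ S.AA) (ha1 : a1 ∈ S.AA) (hU : U ∈ S.UU) (hV : V ∈ S.UU)
    (hVU : V ⊆ U) (h0 : Dec S f U a0 v0) (h1 : Dec S f U a1 v1) (hv : v0 ≠ v1) :
    ∃ s : ℝ, ∀ v, ¬ Dec S f V (pcw (Ch s) a1 a0) v := by
  by_contra hcon
  push Not at hcon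
  choose g hg using hcon
  have has : ∀ s, pcw (Ch s) a1 a0 ∈ S.AA := fun s => S.pw _ _ _ ha1 ha0
  have hg0 : g 0 = v0 := by
    have e : pcw (Ch 0) a1 a0 = a0 := by
      funext w
      exact pcw_neg (by rw [ch_zero]; exact Set.notMem_empty w)
    have h2 := hg 0
    rw [e] at h2
    exact Dec.uniq ha0 hV hU h2 h0
  have hg1 : g 1 = v1 := by
    have e : pcw (Ch 1) a1 a0 = a1 := by
      funext w
      exact pcw_pos (by rw [ch_one]; exact Set.mem_univ w)
    have h2 := hg 1
    rw [e] at h2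
    exact Dec.uniq ha1 hV hU h2 h1
  have hloc : IsLocallyConstant g := by
    rw [IsLocallyConstant.iff_eventually_eq]
    intro s
    obtain ⟨V', hV', hVV⟩ := S.half V hV
    have hV'V : V' ⊆ V := by
      intro x hx
      have := hVV x hx 0 (S.zero_mem V' hV')
      rwa [add_zero] at this
    obtain ⟨i, hi⟩ := exists_close S (has s) hV'
    have hfi : f i = g s := hg s i (cl_mono hV'V hi)
    have hne : f i ≠ !(f i) := by cases f i <;> simp
    have h2 := mt (eq_of_near S hf i (!(f i))) hne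
    push Not at h2
    obtain ⟨δ, hδ, h3⟩ := h2
    rw [Metric.eventually_nhds_iff]
    refine ⟨δ / 2, by linarith, fun s' hs' => ?_⟩
    rw [Real.dist_eq] at hs'
    have h4 : ¬ Dec S f V (pcw (Ch s') a1 a0) (!(f i)) := by
      intro hd
      refine h3 V hV V' hV' _ (has s') hVV hd ?_
      refine ((hi (δ / 2) (by linarith)).union (Sm.ch hs')).mono ?_ (by linarith)
      intro w hw
      by_contra hc'
      simp only [Set.mem_union, Set.mem_ofPred_eq, Set.mem_diff, not_or, not_not, not_and] at hc'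
      obtain ⟨hc1, hc2, hc3⟩ := hc'
      apply hw
      by_cases hws : w ∈ Ch s
      · have hws' : w ∈ Ch s' := hc3 hws
        rw [pcw_pos hws']
        rw [pcw_pos hws] at hc1
        exact hc1
      · have hws' : w ∉ Ch s' := by
          intro hn
          exact hws (hc2 hn)
        rw [pcw_neg hws']
        rw [pcw_neg hws] at hc1
        exact hc1
    have h5 : g s' ≠ !(f i) := fun h => h4 (h ▸ hg s')
    rw [← hfi]
    revert h5
    cases g s' <;> cases f i <;> simp
  apply hv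
  rw [← hg0, ← hg1]
  exact hloc.apply_eq_of_isPreconnected isPreconnected_univ (Set.mem_univ _) (Set.mem_univ _)

end Pool.Agent.T2H66.CF
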