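import Pool.Agent.T2H66.CF.CN1

/-!
# Package CN2: close decided functions with different values

* `common`: induction on `n`. `n = 0`: `c = X i - X i`. Step: let `V1 ∈ UU` with `V1 + V1 ⊆ V`, take
  `c1, U1` for `V1` and `b 0, …, b (n-1)` by induction. Let `W ∈ UU` with `W + W ⊆ U1` and
  `W ⊆ V1` (and so `W ⊆ U1`). Take `i` with `Cl W (X i) (b n + c1)` (`exists_close`) and put
  `c := X i - b n`. Then `c - c1 = X i - (b n + c1)`, so `Cl W c c1`, hence `Cl V c 0` by `cl_add`.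
  For `k < n`, `(b k + c) - (b k + c1) = c - c1` so `Dec W (b k + c) v` by `Dec.shift`. And
  `b n + c = X i`, decided at some `U5` (`dec_X`). Take `U' ⊆ W ∩ U5` and `Dec.mono`.
* `near_pair`: as `a` is not decided at `U` there are `i0, i1` with `Cl U (X i0) a`,
  `Cl U (X i1) a`, `f i0 = true`, `f i1 = false`. Let `m ≥ 1` with `1/m < δ` and
  `b k = pcw (Ch (k/m)) (X i1) (X i0)`, so that `b 0 = X i0` and `b m = X i1`. Let `U0` be such that
  `Dec U0 (X i0) true` and `Dec U0 (X i1) false` (`dec_X`, `S.inter`, `Dec.mono`), `V0 + V0 ⊆ U0`,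
  `V ⊆ U ∩ V0`, and apply `common` to `b 0, …, b m` and `V`: `c` and `U'`. By `Dec.shift`
  `Dec V0 (X i0 + c) true` and `Dec V0 (X i1 + c) false`, so (`Dec.uniq`) the values of `f` at
  `b 0 + c` and `b m + c` are `true` and `false`. Hence there is `k < m` such that `b k + c` has the
  value `true` and `b (k+1) + c` has the value `false`. Put `a0 = b k + c`, `a1 = b (k+1) + c`; they
  differ only on `(Ch (k/m) \ Ch ((k+1)/m)) ∪ (Ch ((k+1)/m) \ Ch (k/m))` (`Sm.ch`). Moreover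
  `b k - a` is in `U` off a negligible set, `c` is in `V ⊆ U` off a negligible set; so
  `Cl G a0 a`, `Cl G a1 a` if `U + U ⊆ G`.
-/

set_option autoImplicit false

open Filter Topology Set

namespace Pool.Agent.T2H66.CF

variable {L ι : Type} [AddCommGroup L]

theorem zsub (S : Sys L ι) {U V : Set L} (hV : V ∈ S.UU)
    (h : ∀ x ∈ V, ∀ y ∈ V, x + y ∈ U) : V ⊆ U := by
  intro x hx
  have := h x hx 0 (S.zero_mem V hV)
  rwa [add_zero] at this

theorem cl_congr {U : Set L} {x y x' y' : Om → L} (h : ∀ w, x w - y w = x' w - y' w)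
    (hx : Cl U x y) : Cl U x' y' := by
  intro δ hδ
  refine (hx δ hδ).mono ?_ le_rfl
  intro w hw
  have h1 : x' w - y' w ∉ U := hw
  rw [← h w] at h1
  exact h1

theorem common (S : Sys L ι) {f : ι → Bool} (hf : LC S f) [Nonempty ι] (n : ℕ)
    (b : ℕ → Om → L) (hb : ∀ k, b k ∈ S.AA) {V : Set L} (hV : V ∈ S.UU) :
    ∃ c ∈ S.AA, Cl V c (fun _ => 0) ∧ ∃ U' ∈ S.UU, ∀ k < n, ∃ v,
      Dec S f U' (fun w => b k w + c w) v := by
  induction n generalizing V with
  | zero =>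
    obtain ⟨i⟩ := ‹Nonempty ι›
    refine ⟨_, S.sub _ _ (S.X_mem i) (S.X_mem i), ?_, V, hV, fun k hk => absurd hk (Nat.not_lt_zero k)⟩
    intro δ hδ
    refine (Sm.empty hδ.le).mono ?_ le_rfl
    intro w hw
    apply hw
    simp only [sub_self]
    exact S.zero_mem V hV
  | succ n ih =>
    obtain ⟨V1, hV1, hV1V⟩ := S.half V hV
    obtain ⟨c1, hc1, hcl1, U1, hU1, hd1⟩ := ih hV1
    obtain ⟨W1, hW1, hW1U⟩ := S.half U1 hU1
    obtain ⟨W, hW, hWW1, hWV1⟩ := S.inter W1 hW1 V1 hV1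
    obtain ⟨i, hi⟩ := exists_close S (S.add _ _ (hb n) hc1) hW
    obtain ⟨U5, hU5, hd5⟩ := dec_X S hf i
    obtain ⟨U', hU', hU'W, hU'5⟩ := S.inter W hW U5 hU5
    have hcc : Cl W (fun w => S.X i w - b n w) c1 := by
      refine cl_congr (fun w => ?_) hi
      abel
    refine ⟨fun w => S.X i w - b n w, S.sub _ _ (S.X_mem i) (hb n), ?_, U', hU', ?_⟩
    · exact cl_add (fun x hx y hy => hV1V x (hWV1 hx) y hy) hcc hcl1
    · intro k hk
      rcases Nat.lt_succ_iff_lt_or_eq.1 hk with hk | rfl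
      · obtain ⟨v, hv⟩ := hd1 k hk
        refine ⟨v, ?_⟩
        have h1 : Dec S f W (fun w => b k w + (S.X i w - b n w)) v := by
          refine Dec.shift (fun x hx y hy => hW1U x (hWW1 hx) y (hWW1 hy)) ?_ hv
          refine cl_congr (fun w => ?_) hcc
          abel
        exact h1.mono hU'W
      · refine ⟨f i, ?_⟩
        have h1 : (fun w => b k w + (S.X i w - b k w)) = S.X i := by
          funext w
          abel
        rw [h1]
        exact hd5.mono hU'5

/-- a discrete intermediate value theorem -/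
theorem divt (P : ℕ → Prop) (m : ℕ) (h0 : P 0) (hm : ¬ P m) : ∃ k < m, P k ∧ ¬ P (k + 1) := by
  induction m with
  | zero => exact absurd h0 hm
  | succ m ih =>
    by_cases h : P m
    · exact ⟨m, Nat.lt_succ_self m, h, hm⟩
    · obtain ⟨k, hk, h1⟩ := ih h
      exact ⟨k, hk.trans (Nat.lt_succ_self m), h1⟩

theorem near_pair (S : Sys L ι) {f : ι → Bool} (hf : LC S f) {U G : Set L} {a : Om → L}
    (ha : a ∈ S.AA) (hU : U ∈ S.UU) (hUG : ∀ x ∈ U, ∀ y ∈ U, x + y ∈ G)
    (hun : ∀ v, ¬ Dec S f U a v) {δ : ℝ} (hδ : 0 < δ) :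
    ∃ U' ∈ S.UU, ∃ a0 ∈ S.AA, ∃ a1 ∈ S.AA, Cl G a0 a ∧ Cl G a1 a ∧ Dec S f U' a0 true ∧
      Dec S f U' a1 false ∧ Sm {w | a0 w ≠ a1 w} δ := by
  have h0 := hun false
  have h1 := hun true
  simp only [Dec, not_forall] at h0 h1
  obtain ⟨i0, hi0, hf0⟩ := h0
  obtain ⟨i1, hi1, hf1⟩ := h1
  have hf0' : f i0 = true := by
    cases h : f i0
    · exact absurd h hf0
    · rfl
  have hf1' : f i1 = false := by
    cases h : f i1
    · rfl
    · exact absurd h hf1
  have : Nonempty ι := ⟨i0⟩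
  obtain ⟨m0, hm0⟩ := exists_nat_one_div_lt hδ
  set m : ℕ := m0 + 1 with hm
  have hmpos : (0 : ℝ) < m := by
    rw [hm]
    positivity
  have hmδ : 1 / (m : ℝ) < δ := by
    rw [hm]
    push_cast
    exact hm0
  let b : ℕ → Om → L := fun k => pcw (Ch ((k : ℝ) / m)) (S.X i1) (S.X i0)
  have hb : ∀ k, b k ∈ S.AA := fun k => S.pw _ _ _ (S.X_mem i1) (S.X_mem i0)
  have hb0 : b 0 = S.X i0 := by
    funext w
    have h : w ∉ Ch (((0 : ℕ) : ℝ) / m) := by
      rw [Nat.cast_zero, zero_div, ch_zero]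
      exact Set.notMem_empty w
    exact pcw_neg h
  have hbm : b m = S.X i1 := by
    funext w
    have h : w ∈ Ch ((m : ℝ) / m) := by
      rw [div_self hmpos.ne', ch_one]
      exact Set.mem_univ w
    exact pcw_pos h
  obtain ⟨U0a, hU0a, hd0a⟩ := dec_X S hf i0
  obtain ⟨U0b, hU0b, hd0b⟩ := dec_X S hf i1
  obtain ⟨U0, hU0, hU0A, hU0B⟩ := S.inter U0a hU0a U0b hU0b
  obtain ⟨V0, hV0, hV0U⟩ := S.half U0 hU0
  obtain ⟨V, hV, hVV0, hVU⟩ := S.inter V0 hV0 U hU
  obtain ⟨c, hc, hcl, U', hU', hdec⟩ := common S hf (m + 1) b hb hV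
  have hbc : ∀ k, (fun w => b k w + c w) ∈ S.AA := fun k => S.add _ _ (hb k) hc
  have hcs : ∀ k, Cl V (fun w => b k w + c w) (b k) := fun k =>
    cl_congr (fun w => by abel) hcl
  have e0 : Dec S f V0 (fun w => b 0 w + c w) true := by
    refine Dec.shift hV0U (cl_mono hVV0 (hcs 0)) ?_
    rw [hb0, ← hf0']
    exact hd0a.mono hU0A
  have e1 : Dec S f V0 (fun w => b m w + c w) false := by
    refine Dec.shift hV0U (cl_mono hVV0 (hcs m)) ?_
    rw [hbm, ← hf1']
    exact hd0b.mono hU0B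
  let P : ℕ → Prop := fun k => Dec S f U' (fun w => b k w + c w) true
  have hP0 : P 0 := by
    obtain ⟨v, hv⟩ := hdec 0 (Nat.succ_pos m)
    have := Dec.uniq (hbc 0) hU' hV0 hv e0
    rw [this] at hv
    exact hv
  have hPm : ¬ P m := by
    intro h
    have := Dec.uniq (hbc m) hU' hV0 h e1
    exact Bool.noConfusion this
  obtain ⟨k, hkm, hk, hk1⟩ := divt P m hP0 hPm
  have hk1' : Dec S f U' (fun w => b (k + 1) w + c w) false := by
    obtain ⟨v, hv⟩ := hdec (k + 1) (by omega)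
    cases v
    · exact hv
    · exact absurd hv hk1
  have hbU : ∀ k, Cl U (b k) a := by
    intro k δ hδ
    refine ((hi0 (δ / 2) (by linarith)).union (hi1 (δ / 2) (by linarith))).mono ?_ (by linarith)
    intro w hw
    have hw' : b k w - a w ∉ U := hw
    by_cases hwC : w ∈ Ch ((k : ℝ) / m)
    · right
      have h2 : b k w = S.X i1 w := pcw_pos hwC
      rw [h2] at hw'
      exact hw'
    · left
      have h2 : b k w = S.X i0 w := pcw_neg hwC
      rw [h2] at hw'
      exact hw'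
  have hbG : ∀ k, Cl G (fun w => b k w + c w) a := fun k =>
    cl_add (fun x hx y hy => hUG x (hVU hx) y hy) (hcs k) (hbU k)
  refine ⟨U', hU', _, hbc k, _, hbc (k + 1), hbG k, hbG (k + 1), hk, hk1', ?_⟩
  have hdist : |(k : ℝ) / m - ((k + 1 : ℕ) : ℝ) / m| < δ := by
    rw [← sub_div, Nat.cast_add, Nat.cast_one, sub_add_cancel_left, neg_div, abs_neg,
      abs_of_pos (by positivity)]
    exact hmδ
  refine (Sm.ch hdist).mono ?_ le_rfl
  intro w hw
  have hw' : b k w + c w ≠ b (k + 1) w + c w := hw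
  by_cases h1 : w ∈ Ch ((k : ℝ) / m)
  · by_cases h2 : w ∈ Ch (((k + 1 : ℕ) : ℝ) / m)
    · have e1 : b k w = S.X i1 w := pcw_pos h1
      have e2 : b (k + 1) w = S.X i1 w := pcw_pos h2
      rw [e1, e2] at hw'
      exact absurd rfl hw'
    · exact Or.inl ⟨h1, h2⟩
  · by_cases h2 : w ∈ Ch (((k + 1 : ℕ) : ℝ) / m)
    · exact Or.inr ⟨h2, h1⟩
    · have e1 : b k w = S.X i0 w := pcw_neg h1
      have e2 : b (k + 1) w = S.X i0 w := pcw_neg h2
      rw [e1, e2] at hw'
      exact absurd rfl hw'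

end Pool.Agent.T2H66.CF
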