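import Pool.Agent.T2H66.CF.CN2

/-!
# Package CN3: the abstract connectedness theorem

Suppose `f i₀ ≠ f i₁`. By `dec_X`, `S.inter`, `Dec.mono` and `exists_undec` there are `G, U ∈ UU`
with `U + U ⊆ G` and `a ∈ AA` undecided at `U` (`∀ v, ¬ Dec S f U a v`). Call such a triple
`(G, U, a)` a state. One step, from the state `(G, U, a)` and the number `n`: `near_pair` with
`δ = 1/(n+1)` gives `U', a0, a1` with `Dec U' a0 true`, `Dec U' a1 false`, `Cl G a0 a`, `Cl G a1 a`,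
`{a0 ≠ a1}` is `δ`-small. Choose `V' ∈ UU` with `V' + V' ⊆ U'`, then `G₂ ∈ UU` with
`G₂ + G₂ ⊆ G`, `G₂ + G₂ + G₂ ⊆ V'`, then `U₂ ∈ UU` with `U₂ + U₂ ⊆ G₂` and `U₂ ⊆ U'`. By
`exists_undec` (with `U'` and `U₂`) there is `s` such that `a₂ = pcw (Ch s) a1 a0` is undecided at
`U₂`. The new state is `(G₂, U₂, a₂)`. We have `Cl G a₂ a` (union of the two negligible sets), and
`{a₂ ≠ a0}` and `{a₂ ≠ a1}` are contained in `{a0 ≠ a1}`, thus `δ`-small.

Iterate (a sequence of states by recursion on `n`, e.g. with `Nat.rec` on the subtype of states and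
`choose` for the step, or `exists_seq`-like lemmas): `G n, U n, a n`, and `U' n, V' n, a0 n, a1 n`.
By `S.sat` applied to `a n`, `G n` there is `b ∈ AA` with `Cl (G n) b (a (n+1))` for all `n`, and by
`S.dens` there is `i` with `Cl (G n) (X i) b` for all `n`. Therefore
`X i - a (n+1) = (X i - b) + (b - a (n+2)) + (a (n+2) - a (n+1))` is in
`G (n+1) + G (n+1) + G (n+1) ⊆ V' n` off a negligible set, so `{X i - a0 n ∉ V' n}` and
`{X i - a1 n ∉ V' n}` are `2/(n+1)`-small. By `eq_of_near` (twice; given `δ` take `n` with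
`2/(n+1) ≤ δ`, `U = U' n`, `V = V' n`) `f i = true` and `f i = false`, a contradiction.
-/

set_option autoImplicit false

open Filter Topology Set

namespace Pool.Agent.T2H66.CF

variable {L ι : Type} [AddCommGroup L]

/-- a state of the construction -/
structure St (S : Sys L ι) (f : ι → Bool) where
  /-- the large neighbourhood -/
  G : Set L
  /-- the small neighbourhood -/
  U : Set L
  /-- the undecided function -/
  a : Om → L
  hG : G ∈ S.UU
  hU : U ∈ S.UU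
  ha : a ∈ S.AA
  hUG : ∀ x ∈ U, ∀ y ∈ U, x + y ∈ G
  hun : ∀ v, ¬ Dec S f U a v

theorem zero_sub_of_add (S : Sys L ι) {U V : Set L} (hV : V ∈ S.UU)
    (h : ∀ x ∈ V, ∀ y ∈ V, x + y ∈ U) : V ⊆ U := by
  intro x hx
  have := h x hx 0 (S.zero_mem V hV)
  rwa [add_zero] at this

/-- one step of the construction -/
theorem step (S : Sys L ι) {f : ι → Bool} (hf : LC S f) (T : St S f) {δ : ℝ} (hδ : 0 < δ) :
    ∃ (T' : St S f), ∃ U' ∈ S.UU, ∃ V' ∈ S.UU, ∃ a0 ∈ S.AA, ∃ a1 ∈ S.AA,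
      (∀ x ∈ V', ∀ y ∈ V', x + y ∈ U') ∧ Dec S f U' a0 true ∧ Dec S f U' a1 false ∧
      (∀ x ∈ T'.G, ∀ y ∈ T'.G, x + y ∈ T.G) ∧ (∀ x ∈ T'.G, ∀ y ∈ T'.G, ∀ z ∈ T'.G, x + y + z ∈ V') ∧
      Cl T.G T'.a T.a ∧ Sm {w | T'.a w ≠ a0 w} δ ∧ Sm {w | T'.a w ≠ a1 w} δ := by
  obtain ⟨U', hU', a0, ha0, a1, ha1, hc0, hc1, hd0, hd1, hsm⟩ :=
    near_pair S hf T.ha T.hU T.hUG T.hun hδ
  obtain ⟨V', hV', hV'U'⟩ := S.half U' hU'
  obtain ⟨V2, hV2, hV2V'⟩ := S.half V' hV'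
  obtain ⟨V3, hV3, hV3V2⟩ := S.half V2 hV2
  obtain ⟨G1, hG1, hG1G⟩ := S.half T.G T.hG
  obtain ⟨G2, hG2, hG2a, hG2b⟩ := S.inter V3 hV3 G1 hG1
  obtain ⟨U1, hU1, hU1G2⟩ := S.half G2 hG2
  obtain ⟨U2, hU2, hU2a, hU2b⟩ := S.inter U1 hU1 U' hU'
  have hV32 : V3 ⊆ V2 := zero_sub_of_add S hV3 hV3V2
  obtain ⟨s, hs⟩ := exists_undec S hf ha0 ha1 hU' hU2 hU2b hd0 hd1 (by decide)
  refine ⟨⟨G2, U2, pcw (Ch s) a1 a0, hG2, hU2, S.pw _ _ _ ha1 ha0,
    fun x hx y hy => hU1G2 x (hU2a hx) y (hU2a hy), hs⟩, U', hU', V', hV', a0, ha0, a1, ha1, hV'U',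
    hd0, hd1, fun x hx y hy => hG1G x (hG2b hx) y (hG2b hy), fun x hx y hy z hz => ?_, ?_, ?_, ?_⟩
  · exact hV2V' _ (hV3V2 x (hG2a hx) y (hG2a hy)) z (hV32 (hG2a hz))
  · intro ε hε
    have h1 := (hc0 (ε / 2) (by linarith)).union (hc1 (ε / 2) (by linarith))
    refine h1.mono ?_ (by linarith)
    intro w hw
    by_cases hwC : w ∈ Ch s
    · right
      have h2 : pcw (Ch s) a1 a0 w - T.a w ∉ T.G := hw
      rw [pcw_pos hwC] at h2
      exact h2
    · left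
      have h2 : pcw (Ch s) a1 a0 w - T.a w ∉ T.G := hw
      rw [pcw_neg hwC] at h2
      exact h2
  · refine hsm.mono ?_ le_rfl
    intro w hw
    have h2 : pcw (Ch s) a1 a0 w ≠ a0 w := hw
    by_cases hwC : w ∈ Ch s
    · rw [pcw_pos hwC] at h2
      exact h2.symm
    · rw [pcw_neg hwC] at h2
      exact absurd rfl h2
  · refine hsm.mono ?_ le_rfl
    intro w hw
    have h2 : pcw (Ch s) a1 a0 w ≠ a1 w := hw
    by_cases hwC : w ∈ Ch s
    · rw [pcw_pos hwC] at h2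
      exact absurd rfl h2
    · rw [pcw_neg hwC] at h2
      exact h2

/-- the first state -/
theorem start (S : Sys L ι) {f : ι → Bool} (hf : LC S f) (i₀ i₁ : ι) (h : f i₀ ≠ f i₁) :
    Nonempty (St S f) := by
  obtain ⟨U0, hU0, hd0⟩ := dec_X S hf i₀
  obtain ⟨U1, hU1, hd1⟩ := dec_X S hf i₁
  obtain ⟨G, hG, hG0, hG1⟩ := S.inter U0 hU0 U1 hU1
  obtain ⟨U, hU, hUG⟩ := S.half G hG
  obtain ⟨s, hs⟩ := exists_undec S hf (S.X_mem i₀) (S.X_mem i₁) hG hU
    (zero_sub_of_add S hU hUG) (hd0.mono hG0) (hd1.mono hG1) h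
  exact ⟨⟨G, U, _, hG, hU, S.pw _ _ _ (S.X_mem i₁) (S.X_mem i₀), hUG, hs⟩⟩

/-- the abstract connectedness theorem -/
theorem conn (S : Sys L ι) {f : ι → Bool} (hf : LC S f) (i₀ i₁ : ι) : f i₀ = f i₁ := by
  by_contra hne
  obtain ⟨T0⟩ := start S hf i₀ i₁ hne
  choose nx U' hU' V' hV' a0 ha0 a1 ha1 hVU hd0 hd1 hGG hGV hCl hs0 hs1 using
    fun (T : St S f) (n : ℕ) => step S hf T (δ := 1 / ((n : ℝ) + 1)) (by positivity)
  let T : ℕ → St S f := fun n => Nat.rec T0 (fun n T => nx T n) n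
  have hT : ∀ n, T (n + 1) = nx (T n) n := fun n => rfl
  obtain ⟨b, hb, hbC⟩ := S.sat (fun n => (T n).a) (fun n => (T n).G) (fun n => (T n).ha)
    (fun n => (T n).hG) (fun n x hx y hy => hGG (T n) n x hx y hy) (fun n => hCl (T n) n)
  obtain ⟨i, hi⟩ := S.dens b hb (fun n => (T n).G) (fun n => (T n).hG)
  have key : ∀ n, Cl (V' (T n) n) (S.X i) (T (n + 1)).a := by
    intro n δ hδ
    have h1 := ((hi (n + 1) (δ / 3) (by linarith)).union (hbC (n + 1) (δ / 3) (by linarith))).union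
      (hCl (T (n + 1)) (n + 1) (δ / 3) (by linarith))
    refine h1.mono ?_ (by linarith)
    intro w hw
    by_contra hcon
    simp only [Set.mem_union, Set.mem_ofPred_eq, not_or, not_not] at hcon
    apply hw
    have h2 := hGV (T n) n _ hcon.1.1 _ hcon.1.2 _ hcon.2
    have h3 : S.X i w - b w + (b w - (T (n + 1 + 1)).a w) +
        ((nx (T (n + 1)) (n + 1)).a w - (T (n + 1)).a w) = S.X i w - (T (n + 1)).a w := by
      have h4 : (T (n + 1 + 1)).a w = (nx (T (n + 1)) (n + 1)).a w := rfl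
      rw [h4]
      abel
    rwa [h3] at h2
  have hn : ∀ δ : ℝ, 0 < δ → ∃ n : ℕ, 1 / ((n : ℝ) + 1) < δ / 2 := fun δ hδ =>
    exists_nat_one_div_lt (by linarith)
  have ht : f i = true := by
    refine eq_of_near S hf i true fun δ hδ => ?_
    obtain ⟨n, hn⟩ := hn δ hδ
    refine ⟨U' (T n) n, hU' _ _, V' (T n) n, hV' _ _, a0 (T n) n, ha0 _ _, hVU _ _, hd0 _ _, ?_⟩
    refine ((key n (δ / 2) (by linarith)).union (hs0 (T n) n)).mono ?_ (by linarith)
    intro w hw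
    by_contra hcon
    simp only [Set.mem_union, Set.mem_ofPred_eq, not_or, not_not] at hcon
    apply hw
    rw [← hcon.2]
    exact hcon.1
  have hf' : f i = false := by
    refine eq_of_near S hf i false fun δ hδ => ?_
    obtain ⟨n, hn⟩ := hn δ hδ
    refine ⟨U' (T n) n, hU' _ _, V' (T n) n, hV' _ _, a1 (T n) n, ha1 _ _, hVU _ _, hd1 _ _, ?_⟩
    refine ((key n (δ / 2) (by linarith)).union (hs1 (T n) n)).mono ?_ (by linarith)
    intro w hw
    by_contra hcon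
    simp only [Set.mem_union, Set.mem_ofPred_eq, not_or, not_not] at hcon
    apply hw
    rw [← hcon.2]
    exact hcon.1
  rw [ht] at hf'
  exact Bool.noConfusion hf'

end Pool.Agent.T2H66.CF
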