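import Mathlib

/-!
# Connected extensions of topological fields in which countable sets are bounded: definitions

`Om` is the set of pairs `(N, i)`, `i < N`. A set `A` of pairs is `δ`-small if, for all large `N`, at
most `δ N` numbers `i < N` satisfy `(N, i) ∈ A`.
-/

set_option autoImplicit false

open Filter Topology Set

namespace Pool.Agent.T2H66.CF

/-- all pairs `(N, i)`, `i < N` -/
abbrev Om : Type := Σ N : ℕ, Fin N

/-- the set `A` asymptotically has proportion at most `δ` -/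
def Sm (A : Set Om) (δ : ℝ) : Prop :=
  ∀ᶠ N : ℕ in atTop, (({i : Fin N | (⟨N, i⟩ : Om) ∈ A}.ncard : ℕ) : ℝ) ≤ δ * N

/-- an increasing chain of sets from the empty set (`s = 0`) to all pairs (`s = 1`) -/
def Ch (s : ℝ) : Set Om := {w | ((w.2 : ℕ) : ℝ) < s * w.1}

theorem Sm.mono {A B : Set Om} {δ ε : ℝ} (h : Sm B δ) (hAB : A ⊆ B) (hδ : δ ≤ ε) : Sm A ε := by
  filter_upwards [h] with N hN
  have h1 : ({i : Fin N | (⟨N, i⟩ : Om) ∈ A}.ncard : ℝ) ≤ {i : Fin N | (⟨N, i⟩ : Om) ∈ B}.ncard := by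
    have h0 : {i : Fin N | (⟨N, i⟩ : Om) ∈ A}.ncard ≤ {i : Fin N | (⟨N, i⟩ : Om) ∈ B}.ncard :=
      Set.ncard_le_ncard (fun i hi => hAB hi) (Set.toFinite _)
    exact_mod_cast h0
  have h2 : δ * N ≤ ε * N := mul_le_mul_of_nonneg_right hδ (Nat.cast_nonneg _)
  linarith

theorem Sm.union {A B : Set Om} {δ ε : ℝ} (hA : Sm A δ) (hB : Sm B ε) : Sm (A ∪ B) (δ + ε) := by
  filter_upwards [hA, hB] with N h1 h2
  have h3 : ({i : Fin N | (⟨N, i⟩ : Om) ∈ A ∪ B}.ncard : ℝ) ≤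
      {i : Fin N | (⟨N, i⟩ : Om) ∈ A}.ncard + {i : Fin N | (⟨N, i⟩ : Om) ∈ B}.ncard := by
    have : {i : Fin N | (⟨N, i⟩ : Om) ∈ A ∪ B} =
        {i : Fin N | (⟨N, i⟩ : Om) ∈ A} ∪ {i : Fin N | (⟨N, i⟩ : Om) ∈ B} := by
      ext i
      simp
    rw [this]
    exact_mod_cast Set.ncard_union_le _ _
  rw [add_mul]
  linarith

theorem Sm.empty {δ : ℝ} (h : 0 ≤ δ) : Sm ∅ δ := by
  refine Eventually.of_forall fun N => ?_
  simp only [Set.mem_empty_iff_false, Set.ofPred_false, Set.ncard_empty, Nat.cast_zero]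
  positivity

theorem not_sm_univ {δ : ℝ} (h : δ < 1) : ¬ Sm univ δ := by
  intro hs
  obtain ⟨N, hN, hN1⟩ := (hs.and (eventually_ge_atTop 1)).exists
  simp only [Set.mem_univ, Set.ofPred_true, Set.ncard_univ, Nat.card_eq_fintype_card,
    Fintype.card_fin] at hN
  have : (1 : ℝ) ≤ N := by exact_mod_cast hN1
  nlinarith

theorem ch_zero : Ch 0 = ∅ := by
  ext w
  simp [Ch]

theorem ch_one : Ch 1 = univ := by
  ext w
  simp [Ch]

theorem Sm.lt (n : ℕ) {δ : ℝ} (h : 0 ≤ δ) : Sm {w | w.1 < n} δ := by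
  filter_upwards [eventually_ge_atTop n] with N hN
  have : {i : Fin N | (⟨N, i⟩ : Om) ∈ {w : Om | w.1 < n}} = ∅ := by
    ext i
    simp
    omega
  refine le_trans (b := (0 : ℝ)) (le_of_eq ?_) (by positivity)
  rw [Nat.cast_eq_zero]
  exact (congrArg Set.ncard this).trans (Set.ncard_empty _)

theorem Sm.ch {r s δ : ℝ} (h : |r - s| < δ) : Sm ((Ch r \ Ch s) ∪ (Ch s \ Ch r)) δ := by
  wlog hrs : s ≤ r generalizing r s
  · rw [Set.union_comm]
    exact this (by rwa [abs_sub_comm]) (le_of_not_ge hrs)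
  rw [abs_of_nonneg (by linarith)] at h
  obtain ⟨N0, hN0⟩ := exists_nat_gt (1 / (δ - (r - s)))
  filter_upwards [eventually_ge_atTop N0] with N hN
  have hd : 0 < δ - (r - s) := by linarith
  have hN1 : (1 : ℝ) ≤ (δ - (r - s)) * N := by
    have h1 : (N0 : ℝ) ≤ N := by exact_mod_cast hN
    have h2 : 1 / (δ - (r - s)) < N := by linarith
    rw [div_lt_iff₀ hd] at h2
    linarith
  have hNn : (0 : ℝ) ≤ N := Nat.cast_nonneg _
  set A : Set (Fin N) := {i : Fin N | (⟨N, i⟩ : Om) ∈ (Ch r \ Ch s) ∪ (Ch s \ Ch r)} with hA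
  have hA' : ∀ i ∈ A, s * N ≤ ((i : ℕ) : ℝ) ∧ ((i : ℕ) : ℝ) < r * N := by
    intro i hi
    rcases hi with ⟨h1, h2⟩ | ⟨h1, h2⟩
    · simp only [Ch, Set.mem_ofPred_eq, not_lt] at h1 h2
      exact ⟨h2, h1⟩
    · simp only [Ch, Set.mem_ofPred_eq, not_lt] at h1 h2
      have : s * N ≤ r * N := mul_le_mul_of_nonneg_right hrs hNn
      exact absurd (lt_of_lt_of_le h1 this) (not_lt.2 h2)
  have h1 : A.ncard ≤ (Finset.Ico ⌈s * N⌉₊ ⌈r * N⌉₊).card := by
    rw [← Set.ncard_coe_finset]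
    refine Set.ncard_le_ncard_of_injOn (fun i : Fin N => (i : ℕ)) ?_ ?_ (Set.toFinite _)
    · intro i hi
      obtain ⟨h1, h2⟩ := hA' i hi
      simp only [Finset.coe_Ico, Set.mem_Ico]
      exact ⟨Nat.ceil_le.2 h1, Nat.lt_ceil.2 h2⟩
    · intro i _ j _ hij
      exact Fin.ext hij
  rw [Nat.card_Ico] at h1
  by_cases hne : A.Nonempty
  · obtain ⟨i, hi⟩ := hne
    obtain ⟨h3, h4⟩ := hA' i hi
    have hr0 : 0 ≤ r * N := by
      have : (0 : ℝ) ≤ (i : ℕ) := Nat.cast_nonneg _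
      linarith
    have h5 : (⌈r * N⌉₊ : ℝ) < r * N + 1 := Nat.ceil_lt_add_one hr0
    have h6 : s * N ≤ (⌈s * N⌉₊ : ℝ) := Nat.le_ceil _
    have h7 : (⌈s * N⌉₊ : ℕ) ≤ ⌈r * N⌉₊ := Nat.ceil_mono (mul_le_mul_of_nonneg_right hrs hNn)
    have h8 : ((⌈r * N⌉₊ - ⌈s * N⌉₊ : ℕ) : ℝ) = (⌈r * N⌉₊ : ℝ) - ⌈s * N⌉₊ := by
      rw [Nat.cast_sub h7]
    have h9 : (A.ncard : ℝ) ≤ ((⌈r * N⌉₊ - ⌈s * N⌉₊ : ℕ) : ℝ) := by exact_mod_cast h1
    rw [h8] at h9
    nlinarith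
  · rw [Set.not_nonempty_iff_eq_empty.1 hne, Set.ncard_empty, Nat.cast_zero]
    have : 0 ≤ δ := by linarith
    positivity

section

variable {L : Type} [AddCommGroup L]

/-- `x - y` has its values in `U` off a negligible set -/
def Cl (U : Set L) (x y : Om → L) : Prop := ∀ δ : ℝ, 0 < δ → Sm {w | x w - y w ∉ U} δ

open Classical in
/-- the function which is `a` on `C` and `b` off `C` -/
noncomputable def pcw (C : Set Om) (a b : Om → L) : Om → L := fun w => if w ∈ C then a w else b w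

omit [AddCommGroup L] in
theorem pcw_pos {C : Set Om} {a b : Om → L} {w : Om} (h : w ∈ C) : pcw C a b w = a w := if_pos h

omit [AddCommGroup L] in
theorem pcw_neg {C : Set Om} {a b : Om → L} {w : Om} (h : w ∉ C) : pcw C a b w = b w := if_neg h

/-- the data for the abstract connectedness theorem -/
structure Sys (L ι : Type) [AddCommGroup L] where
  /-- basic neighbourhoods of zero -/
  UU : Set (Set L)
  /-- the admissible functions -/
  AA : Set (Om → L)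
  /-- the transcendental elements -/
  X : ι → Om → L
  zero_mem : ∀ U ∈ UU, (0 : L) ∈ U
  nonempty : UU.Nonempty
  inter : ∀ U ∈ UU, ∀ V ∈ UU, ∃ W ∈ UU, W ⊆ U ∧ W ⊆ V
  half : ∀ U ∈ UU, ∃ V ∈ UU, ∀ x ∈ V, ∀ y ∈ V, x + y ∈ U
  pw : ∀ (C : Set Om) (a b : Om → L), a ∈ AA → b ∈ AA → pcw C a b ∈ AA
  add : ∀ a b : Om → L, a ∈ AA → b ∈ AA → (fun w => a w + b w) ∈ AA
  sub : ∀ a b : Om → L, a ∈ AA → b ∈ AA → (fun w => a w - b w) ∈ AA
  X_mem : ∀ i, X i ∈ AA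
  dens : ∀ a ∈ AA, ∀ U : ℕ → Set L, (∀ n, U n ∈ UU) → ∃ i, ∀ n, Cl (U n) (X i) a
  sat : ∀ (a : ℕ → Om → L) (U : ℕ → Set L), (∀ n, a n ∈ AA) → (∀ n, U n ∈ UU) →
    (∀ n, ∀ x ∈ U (n + 1), ∀ y ∈ U (n + 1), x + y ∈ U n) → (∀ n, Cl (U n) (a (n + 1)) (a n)) →
    ∃ b ∈ AA, ∀ n, Cl (U n) b (a (n + 1))

/-- the function `f` on the indices is locally constant -/
def LC {L ι : Type} [AddCommGroup L] (S : Sys L ι) (f : ι → Bool) : Prop :=
  ∀ i, ∃ U ∈ S.UU, ∃ δ : ℝ, 0 < δ ∧ ∀ i', Sm {w | S.X i' w - S.X i w ∉ U} δ → f i' = f i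

/-- the function `f` has the value `v` at all transcendental elements in the class of `a` up to
`U` -/
def Dec {L ι : Type} [AddCommGroup L] (S : Sys L ι) (f : ι → Bool) (U : Set L) (a : Om → L)
    (v : Bool) : Prop :=
  ∀ i, Cl U (S.X i) a → f i = v

end

/-- the topological field `F` is such that countable subsets are bounded -/
def CB (F : Type) [Field F] [TopologicalSpace F] : Prop :=
  ∀ R : Set F, R.Countable → ∀ U ∈ 𝓝 (0 : F), ∃ V ∈ 𝓝 (0 : F), ∀ r ∈ R, ∀ v ∈ V, r * v ∈ U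

/-- for every `j` and every finite set `B e` which depends only on the coordinates of `e` smaller
than `j`, the coordinate `e j` does not belong to `B e` for almost all `e` -/
def Thin {J : Type} [LinearOrder J] (V : Ultrafilter (J → ℕ)) : Prop :=
  ∀ (j : J) (B : (J → ℕ) → Set ℕ), (∀ e, (B e).Finite) →
    (∀ e e' : J → ℕ, (∀ i < j, e i = e' i) → B e = B e') →
    ∀ᶠ e in (V : Filter (J → ℕ)), e j ∉ B e

end Pool.Agent.T2H66.CF
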