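import Pool.Agent.T2H66.CF.Defs

/-!
# Package IX: the index set

Proof. `J₀ := Germ (hyperfilter ℕ : Filter ℕ) ℕ` is a linear order (`Filter.Germ.instLinearOrder`) in
which every sequence `s` is strictly bounded: if `s n` is the germ of `f n` then the germ of
`k ↦ 1 + max_{n ≤ k} f n k` is larger than all `s n` (`f n k < 1 + ...` for all `k ≥ n`, hence for
almost all `k`). Let `T := A ⊕ J₀` and `I := ℕ → T` with any linear order (for example
`linearOrderOfSTO (WellOrderingRel : I → I → Prop)`), `J := J₀ ×ₗ I` (`Prod.Lex`). There is an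
injection `code : A × (ℕ → J) → I`: `code (a, s) 0 = inl a`,
`code (a, s) (1 + Nat.pair n 0) = inr (s n).1`, `code (a, s) (1 + Nat.pair n (m + 1)) = (s n).2 m`.
Put `jd (a, s) = (bd s, code (a, s))` with `bd s` a strict upper bound of the `(s n).1`.
-/

set_option autoImplicit false

open Filter Topology Set

namespace Pool.Agent.T2H66.CF

/-- the linear order in which all sequences are bounded -/
abbrev J₀ : Type := Germ (hyperfilter ℕ : Filter ℕ) ℕ

theorem bdd_seq (s : ℕ → J₀) : ∃ b : J₀, ∀ n, s n < b := by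
  have h : ∀ n, ∃ f : ℕ → ℕ, s n = (f : J₀) := fun n => by
    induction s n using Germ.inductionOn with
    | _ f => exact ⟨f, rfl⟩
  choose f hf using h
  refine ⟨((fun k => 1 + ∑ n ∈ Finset.range (k + 1), f n k : ℕ → ℕ) : J₀), fun n => ?_⟩
  rw [hf n]
  refine Germ.coe_lt.2 ?_
  have h1 : ∀ᶠ k in (hyperfilter ℕ : Filter ℕ), n ≤ k :=
    Nat.hyperfilter_le_atTop (eventually_ge_atTop n)
  filter_upwards [h1] with k hk
  have h2 : f n k ≤ ∑ n ∈ Finset.range (k + 1), f n k :=
    Finset.single_le_sum (f := fun n => f n k) (fun _ _ => Nat.zero_le _)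
      (Finset.mem_range.2 (Nat.lt_succ_of_le hk))
  omega

/-- the code -/
def code {A T : Type} (iA : A → T) (iJ : J₀ → T) (p : A × (ℕ → J₀ × (ℕ → T))) : ℕ → T
  | 0 => iA p.1
  | k + 1 => match (Nat.unpair k).2 with
    | 0 => iJ (p.2 (Nat.unpair k).1).1
    | m + 1 => (p.2 (Nat.unpair k).1).2 m

theorem code_inj {A T : Type} (iA : A → T) (hA : Function.Injective iA) (iJ : J₀ → T)
    (hJ : Function.Injective iJ) : Function.Injective (code iA iJ) := by
  rintro ⟨a, s⟩ ⟨a', s'⟩ h
  have h0 : a = a' := hA (congrFun h 0)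
  have h1 : ∀ n, (s n).1 = (s' n).1 := by
    intro n
    have h2 := congrFun h (Nat.pair n 0 + 1)
    simp only [code, Nat.unpair_pair] at h2
    exact hJ h2
  have h2 : ∀ n m, (s n).2 m = (s' n).2 m := by
    intro n m
    have h2 := congrFun h (Nat.pair n (m + 1) + 1)
    simp only [code, Nat.unpair_pair] at h2
    exact h2
  have h3 : s = s' := funext fun n => Prod.ext (h1 n) (funext (h2 n))
  rw [h0, h3]

theorem exists_index (A : Type) [Nonempty A] : ∃ (J : Type) (_ : LinearOrder J)
    (jd : A × (ℕ → J) → J),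
    Nonempty J ∧ Function.Injective jd ∧ ∀ a s n, s n < jd (a, s) := by
  classical
  let T : Type := A ⊕ J₀
  let I : Type := ℕ → T
  let _ : LinearOrder I := linearOrderOfSTO (WellOrderingRel : I → I → Prop)
  choose bd hbd using bdd_seq
  obtain ⟨a₀⟩ := ‹Nonempty A›
  let c : A × (ℕ → J₀ × I) → I := code Sum.inl Sum.inr
  have hc : Function.Injective c := code_inj Sum.inl Sum.inl_injective Sum.inr Sum.inr_injective
  refine ⟨J₀ ×ₗ I, inferInstance, fun p =>
    toLex (bd (fun n => (ofLex (p.2 n)).1), c (p.1, fun n => ofLex (p.2 n))),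
    ⟨toLex (bd (fun _ => 0), fun _ => Sum.inl a₀)⟩, ?_, ?_⟩
  · rintro ⟨a, s⟩ ⟨a', s'⟩ h
    have h1 := hc (congrArg (fun x => (ofLex x).2) h)
    have h2 := congrArg Prod.fst h1
    have h3 := congrArg Prod.snd h1
    exact Prod.ext h2 h3
  · intro a s n
    refine Prod.Lex.lt_iff.2 (Or.inl ?_)
    exact hbd (fun n => (ofLex (s n)).1) n

end Pool.Agent.T2H66.CF
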