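import Pool.Agent.T2H66.CF.Obj

/-!
# Package OB1: closure properties of the admissible functions

* `adm_pw`, `adm_add`, `adm_sub`: let `a₁, a₂` be given by `(s₁, b₁)`, `(s₂, b₂)`. Put `s (2n) = s₁ n`,
  `s (2n+1) = s₂ n` and `b w t = b₁ w (t ∘ (2 ·)) + b₂ w (t ∘ (2 · + 1))` (resp. `-`, resp. the first
  for `w ∈ C` and the second otherwise). The range of `b` is in the image of the product of two
  countable sets (resp. in the union). It is convenient to prove one lemma: for all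
  `op : Om → F → F → F` such that the set of all values `op w x y` with `x`, `y` in countable sets
  `R₁`, `R₂` is countable (as `Om` is countable this holds for every `op`:
  `Set.Countable` of the image of `univ ×ˢ R₁ ×ˢ R₂`), the function
  `w ↦ gm V (fun e => op w (ff (b₁ w) s₁ e) (ff (b₂ w) s₂ e))` is admissible.
* `adm_XX`: `s' 0 = jd d`, `s' (n+1) = s n`, `b' w t = d.b w (fun n => t (n+1)) + d.g w * ε (t 0)`.
* `adm_dens`: write `U' n ∈ 𝓝 0` for the given neighbourhoods, `a w = gm V (ff (b w) s)`. For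
  every `N` there is `g N ≠ 0` with `g N * ε k ∈ U' n` for all `n ≤ N` and all `k`: apply `CB F` to the
  countable set `range ε` and to `⋂ n ≤ N, U' n`, and take an element `≠ 0` of the neighbourhood
  (`hnd`). Let `d = (fun w => g w.1, b, s)`. Then `XX V jd ε d w - a w` is the germ of
  `e ↦ g w.1 * ε (e (jd d))` which is in `U' n` when `n ≤ w.1`; the set `{w | w.1 < n}` is negligible
  (`Sm.lt`).
-/

set_option autoImplicit false

open Filter Topology Set

namespace Pool.Agent.T2H66.CF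

variable {J F : Type} [Field F] (V : Ultrafilter (J → ℕ))

theorem adm_op (op : Om → F → F → F) (a b : Om → GMM V F) (ha : a ∈ Adm V F) (hb : b ∈ Adm V F)
    (c : Om → GMM V F) (hc : ∀ w x y, a w = gm V x → b w = gm V y →
      c w = gm V (fun e => op w (x e) (y e))) : c ∈ Adm V F := by
  obtain ⟨s₁, b₁, hb₁, h₁⟩ := ha
  obtain ⟨s₂, b₂, hb₂, h₂⟩ := hb
  refine ⟨fun n => if n % 2 = 0 then s₁ (n / 2) else s₂ (n / 2),
    fun w t => op w (b₁ w (fun k => t (2 * k))) (b₂ w (fun k => t (2 * k + 1))), ?_, fun w => ?_⟩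
  · have h3 : (Set.image (fun q : Om × F × F => op q.1 q.2.1 q.2.2) (Set.univ ×ˢ
        ((Set.range fun p : Om × (ℕ → ℕ) => b₁ p.1 p.2) ×ˢ
          (Set.range fun p : Om × (ℕ → ℕ) => b₂ p.1 p.2)))).Countable :=
      (Set.countable_univ.prod (hb₁.prod hb₂)).image _
    refine h3.mono ?_
    rintro _ ⟨⟨w, t⟩, rfl⟩
    exact ⟨(w, b₁ w (fun k => t (2 * k)), b₂ w (fun k => t (2 * k + 1))),
      ⟨Set.mem_univ _, ⟨(w, _), rfl⟩, ⟨(w, _), rfl⟩⟩, rfl⟩
  · rw [hc w _ _ (h₁ w) (h₂ w)]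
    congr 1
    funext e
    have h4 : (fun k => e (if 2 * k % 2 = 0 then s₁ (2 * k / 2) else s₂ (2 * k / 2))) =
        fun k => e (s₁ k) := by
      funext k
      rw [if_pos (by omega), Nat.mul_div_cancel_left k (by norm_num)]
    have h5 : (fun k => e (if (2 * k + 1) % 2 = 0 then s₁ ((2 * k + 1) / 2) else
        s₂ ((2 * k + 1) / 2))) = fun k => e (s₂ k) := by
      funext k
      rw [if_neg (by omega)]
      congr 2
      omega
    simp only [ff]
    rw [h4, h5]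

theorem adm_pw (C : Set Om) (a b : Om → GMM V F) (ha : a ∈ Adm V F) (hb : b ∈ Adm V F) :
    pcw C a b ∈ Adm V F := by
  classical
  refine adm_op V (fun w x y => if w ∈ C then x else y) a b ha hb _ ?_
  intro w x y hx hy
  by_cases h : w ∈ C
  · rw [pcw_pos h, hx]
    simp only [if_pos h]
  · rw [pcw_neg h, hy]
    simp only [if_neg h]

theorem adm_add (a b : Om → GMM V F) (ha : a ∈ Adm V F) (hb : b ∈ Adm V F) :
    (fun w => a w + b w) ∈ Adm V F := by
  refine adm_op V (fun _ x y => x + y) a b ha hb _ ?_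
  intro w x y hx hy
  rw [gm_add, ← hx, ← hy]

theorem adm_sub (a b : Om → GMM V F) (ha : a ∈ Adm V F) (hb : b ∈ Adm V F) :
    (fun w => a w - b w) ∈ Adm V F := by
  refine adm_op V (fun _ x y => x - y) a b ha hb _ ?_
  intro w x y hx hy
  rw [gm_sub, ← hx, ← hy]

theorem adm_XX (jd : Dat J F → J) (ε : ℕ → F) (d : Dat J F) : XX V jd ε d ∈ Adm V F := by
  refine ⟨fun n => Nat.casesOn n (jd d) d.s, fun w t => d.b w (fun n => t (n + 1)) +
    d.g w * ε (t 0), ?_, fun w => rfl⟩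
  have h3 : (Set.image (fun q : F × Om × ℕ => q.1 + d.g q.2.1 * ε q.2.2)
      ((Set.range fun p : Om × (ℕ → ℕ) => d.b p.1 p.2) ×ˢ (Set.univ : Set (Om × ℕ)))).Countable :=
    (d.hb.prod Set.countable_univ).image _
  refine h3.mono ?_
  rintro _ ⟨⟨w, t⟩, rfl⟩
  exact ⟨(d.b w (fun n => t (n + 1)), w, t 0), ⟨⟨(w, _), rfl⟩, Set.mem_univ _⟩, rfl⟩

theorem adm_dens [TopologicalSpace F] (hF : CB F) (hnd : ∀ U ∈ 𝓝 (0 : F), ∃ x ∈ U, x ≠ 0)
    (jd : Dat J F → J) (ε : ℕ → F) (a : Om → GMM V F) (ha : a ∈ Adm V F) (U : ℕ → Set F)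
    (hU : ∀ n, U n ∈ 𝓝 (0 : F)) : ∃ d, ∀ n, Cl (nb V (U n)) (XX V jd ε d) a := by
  obtain ⟨s, b, hb, hab⟩ := ha
  have hg : ∀ N : ℕ, ∃ g : F, g ≠ 0 ∧ ∀ n ≤ N, ∀ k, g * ε k ∈ U n := by
    intro N
    have h1 : (⋂ n ∈ Finset.range (N + 1), U n) ∈ 𝓝 (0 : F) := by
      rw [Filter.biInter_finset_mem]
      exact fun n _ => hU n
    obtain ⟨W, hW, hWU⟩ := hF (Set.range ε) (Set.countable_range ε) _ h1
    obtain ⟨x, hx, hx0⟩ := hnd W hW
    refine ⟨x, hx0, fun n hn k => ?_⟩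
    have h2 := hWU (ε k) ⟨k, rfl⟩ x hx
    rw [mul_comm]
    exact Set.mem_iInter₂.1 h2 n (Finset.mem_range.2 (Nat.lt_succ_of_le hn))
  choose g hg0 hg using hg
  refine ⟨⟨fun w => g w.1, b, s, fun w => hg0 w.1, hb⟩, fun n => ?_⟩
  intro δ hδ
  refine (Sm.lt n hδ.le).mono ?_ le_rfl
  intro w hw
  by_contra hcon
  apply hw
  have h1 : n ≤ w.1 := not_lt.1 hcon
  show gm V (fun e => ff (b w) s e + g w.1 * ε (e (jd _))) - a w ∈ nb V (U n)
  rw [hab, ← gm_sub, gm_mem_nb]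
  refine Eventually.of_forall fun e => ?_
  rw [add_sub_cancel_left]
  exact hg w.1 n h1 _

end Pool.Agent.T2H66.CF
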