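import Pool.Agent.T2H66.CF.Obj

/-!
# Package OB2: saturation

Proof. Let `a n w = gm V (ff (b n w) (s n))`. Let `s' 0 = j`, `s' (1 + Nat.pair n k) = s n k`, so that for
`t = e ∘ s'` we have `t 0 = e j` and `e ∘ s n = t_n := fun k => t (1 + Nat.pair n k)`. Let
`m w t ≤ t 0` be the largest number `m ≤ t 0` such that
`b (i+1) w t_{i+1} - b i w t_i ∈ U i` for all `i < m` (`Nat.findGreatest`), and
`b' w t = b m w t_m` with `m = m w t`. Its range is contained in the union of the ranges of the `b n`.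

Claim: `Cl (nb V (U n)) b' (a (n+1))`. The union of the negligible sets
`Bad i = {w | a (i+1) w - a i w ∉ nb V (U i)}`, `i ≤ n`, is negligible. Let `w` be in none of them. For
almost all `e` we have `n + 1 ≤ e j` (`Thin` with `B e = {k | k < n + 1}`) and
`u i := b (i+1) w t_{i+1} - b i w t_i ∈ U i` for all `i ≤ n`, so that `n + 1 ≤ m`, and
`b' w t - b (n+1) w t_{n+1} = ∑_{i = n+1}^{m-1} u i` with `u i ∈ U i` for all these `i` (`i < m`). By
downward induction on `k`, `∑_{i=k+1}^{m-1} u i ∈ U k` for all `k` (for `k + 1 ≥ m` the sum is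
`0 ∈ U k`; `u (k+1) + ∑_{i = k+2}^{m-1} u i ∈ U (k+1) + U (k+1) ⊆ U k`). So the difference is in
`U n`. (In terms of `y i = b i w t_i`: for `k < m`, `y m - y (k+1) ∈ U k`, by induction on `m - k`.)
-/

set_option autoImplicit false

open Filter Topology Set

namespace Pool.Agent.T2H66.CF

theorem tele {F : Type} [AddCommGroup F] (U : ℕ → Set F) (h0 : ∀ n, (0 : F) ∈ U n)
    (hUU : ∀ n, ∀ x ∈ U (n + 1), ∀ y ∈ U (n + 1), x + y ∈ U n) (y : ℕ → F) (m : ℕ)
    (hy : ∀ i < m, y (i + 1) - y i ∈ U i) : ∀ d k, k + 1 + d = m → y m - y (k + 1) ∈ U k := by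
  intro d
  induction d with
  | zero =>
    intro k hk
    rw [← hk, add_zero, sub_self]
    exact h0 k
  | succ d ih =>
    intro k hk
    have h1 := ih (k + 1) (by omega)
    have h2 := hy (k + 1) (by omega)
    have h3 := hUU k _ h1 _ h2
    rwa [sub_add_sub_cancel] at h3

/-- the block `n` of the sequence -/
def sl (t : ℕ → ℕ) (n : ℕ) : ℕ → ℕ := fun k => t (Nat.pair n k + 1)

open Classical in
/-- the stage at which we stop -/
noncomputable def mm {F : Type} [Field F] (b : ℕ → Om → (ℕ → ℕ) → F) (U : ℕ → Set F) (w : Om)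
    (t : ℕ → ℕ) : ℕ :=
  Nat.findGreatest (fun m => ∀ i < m, b (i + 1) w (sl t (i + 1)) - b i w (sl t i) ∈ U i) (t 0)

open Classical in
theorem mm_spec {F : Type} [Field F] (b : ℕ → Om → (ℕ → ℕ) → F) (U : ℕ → Set F) (w : Om)
    (t : ℕ → ℕ) : ∀ i < mm b U w t, b (i + 1) w (sl t (i + 1)) - b i w (sl t i) ∈ U i := by
  unfold mm
  exact Nat.findGreatest_spec (P := fun m => ∀ i < m, b (i + 1) w (sl t (i + 1)) -
    b i w (sl t i) ∈ U i) (Nat.zero_le (t 0)) (fun i hi => absurd hi (Nat.not_lt_zero i))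

open Classical in
theorem le_mm {F : Type} [Field F] (b : ℕ → Om → (ℕ → ℕ) → F) (U : ℕ → Set F) (w : Om)
    (t : ℕ → ℕ) (n : ℕ) (hn : n ≤ t 0)
    (h : ∀ i < n, b (i + 1) w (sl t (i + 1)) - b i w (sl t i) ∈ U i) : n ≤ mm b U w t := by
  unfold mm
  exact Nat.le_findGreatest (P := fun m => ∀ i < m, b (i + 1) w (sl t (i + 1)) -
    b i w (sl t i) ∈ U i) hn h

theorem adm_sat {J F : Type} [LinearOrder J] [Nonempty J] [Field F] [TopologicalSpace F]
    (V : Ultrafilter (J → ℕ)) (hV : Thin V) (a : ℕ → Om → GMM V F) (U : ℕ → Set F)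
    (ha : ∀ n, a n ∈ Adm V F) (hU : ∀ n, U n ∈ 𝓝 (0 : F))
    (hUU : ∀ n, ∀ x ∈ U (n + 1), ∀ y ∈ U (n + 1), x + y ∈ U n)
    (hCl : ∀ n, Cl (nb V (U n)) (a (n + 1)) (a n)) :
    ∃ b ∈ Adm V F, ∀ n, Cl (nb V (U n)) b (a (n + 1)) := by
  choose s b hb hab using ha
  obtain ⟨j⟩ := ‹Nonempty J›
  let s' : ℕ → J := fun k => Nat.casesOn k j fun k => s (Nat.unpair k).1 (Nat.unpair k).2
  let b' : Om → (ℕ → ℕ) → F := fun w t => b (mm b U w t) w (sl t (mm b U w t))
  have hs0 : s' 0 = j := rfl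
  have hsl : ∀ (e : J → ℕ) (n : ℕ), sl (fun k => e (s' k)) n = fun k => e (s n k) := by
    intro e n
    funext k
    show e (s (Nat.unpair (Nat.pair n k)).1 (Nat.unpair (Nat.pair n k)).2) = e (s n k)
    rw [Nat.unpair_pair]
  have hb' : Ctb b' := by
    have h1 : (⋃ n, Set.range fun p : Om × (ℕ → ℕ) => b n p.1 p.2).Countable :=
      Set.countable_iUnion hb
    refine h1.mono ?_
    rintro _ ⟨⟨w, t⟩, rfl⟩
    exact Set.mem_iUnion.2 ⟨mm b U w t, ⟨(w, sl t (mm b U w t)), rfl⟩⟩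
  refine ⟨fun w => gm V (ff (b' w) s'), ⟨s', b', hb', fun w => rfl⟩, fun n => ?_⟩
  have hbad : ∀ m : ℕ, ∀ δ : ℝ, 0 < δ →
      Sm {w | ∃ i < m, a (i + 1) w - a i w ∉ nb V (U i)} δ := by
    intro m
    induction m with
    | zero =>
      intro δ hδ
      refine (Sm.empty hδ.le).mono ?_ le_rfl
      rintro w ⟨i, hi, -⟩
      exact absurd hi (Nat.not_lt_zero i)
    | succ m ih =>
      intro δ hδ
      refine ((ih (δ / 2) (by linarith)).union (hCl m (δ / 2) (by linarith))).mono ?_ (by linarith)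
      rintro w ⟨i, hi, h⟩
      rcases Nat.lt_succ_iff_lt_or_eq.1 hi with hi | rfl
      · exact Or.inl ⟨i, hi, h⟩
      · exact Or.inr h
  intro δ hδ
  refine (hbad (n + 1) δ hδ).mono ?_ le_rfl
  intro w hw
  by_contra hcon
  simp only [Set.mem_ofPred_eq, not_exists, not_and, not_not] at hcon
  apply hw
  have h1 : ∀ᶠ e in (V : Filter (J → ℕ)), n + 1 ≤ e j := by
    have h2 := hV j (fun _ => {k | k < n + 1}) (fun _ => Set.finite_lt_nat (n + 1))
      (fun _ _ _ => rfl)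
    refine h2.mono fun e he => ?_
    exact not_lt.1 he
  have h2 : ∀ i < n + 1, ∀ᶠ e in (V : Filter (J → ℕ)),
      b (i + 1) w (fun k => e (s (i + 1) k)) - b i w (fun k => e (s i k)) ∈ U i := by
    intro i hi
    have h3 := hcon i hi
    rw [hab, hab, ← gm_sub, gm_mem_nb] at h3
    exact h3
  have h3 : ∀ᶠ e in (V : Filter (J → ℕ)), ∀ i ∈ Finset.range (n + 1),
      b (i + 1) w (fun k => e (s (i + 1) k)) - b i w (fun k => e (s i k)) ∈ U i := by
    rw [Filter.eventually_all_finset]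
    exact fun i hi => h2 i (Finset.mem_range.1 hi)
  show gm V (ff (b' w) s') - a (n + 1) w ∈ nb V (U n)
  rw [hab, ← gm_sub, gm_mem_nb]
  filter_upwards [h1, h3] with e he1 he3
  set t : ℕ → ℕ := fun k => e (s' k) with ht
  have ht0 : t 0 = e j := rfl
  have e1 : ∀ i < n + 1, b (i + 1) w (sl t (i + 1)) - b i w (sl t i) ∈ U i := by
    intro i hi
    rw [hsl, hsl]
    exact he3 i (Finset.mem_range.2 hi)
  have e2 : n + 1 ≤ mm b U w t := le_mm b U w t (n + 1) (by rw [ht0]; exact he1) e1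
  have e3 := tele U (fun n => mem_of_mem_nhds (hU n)) hUU (fun i => b i w (sl t i))
    (mm b U w t) (mm_spec b U w t) (mm b U w t - (n + 1)) n (by omega)
  have e4 : ff (b (n + 1) w) (s (n + 1)) e = b (n + 1) w (sl t (n + 1)) := by
    rw [hsl]
    rfl
  rw [e4]
  exact e3

end Pool.Agent.T2H66.CF
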