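import Pool.Agent.T2H66.CF.Defs

/-!
# Package NV: nonvanishing of polynomials

Proof. First the case `D = Fin n` and `jd : Fin n → J` strictly antitone, by induction on `n`, for all
polynomials. `n = 0`: `P = C a`, `a ≠ 0`. Step `n + 1`: let `Q = MvPolynomial.finSuccEquiv F n P`, a
nonzero polynomial over `MvPolynomial (Fin n) F`, with leading coefficient `c ≠ 0`. By the induction
hypothesis (for `jd ∘ Fin.succ`, ...) `eval (...) c ≠ 0` for almost all `e`. By
`MvPolynomial.eval_eq_eval_mv_eval'` the value of `P` at `e` is the value of the univariate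
polynomial `q e := Q.map (eval (fun d => b d.succ e + g d.succ * ε (e (jd d.succ))))` at
`b 0 e + g 0 * ε (e (jd 0))`. The polynomial `q e` and the element `b 0 e` depend only on the
coordinates of `e` below `jd 0` (as `jd d.succ < jd 0`). Let
`B e = {k | q e ≠ 0 ∧ (q e).eval (b 0 e + g 0 * ε k) = 0}`. It is finite as the injective map
`k ↦ b 0 e + g 0 * ε k` maps it to the roots of `q e`. So `e (jd 0) ∉ B e` for almost all `e`, and
`q e ≠ 0` for almost all `e` (its coefficient at the degree of `Q` is nonzero).

The general case: put on `D` the linear order `LinearOrder.lift' jd hjd` (or its dual), let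
`T = P.vars`, `n = T.card`, enumerate `T` in decreasing order by `Fin n`, and write
`P = MvPolynomial.rename r Q`, `r : Fin n → D` injective with range `T`
(`MvPolynomial.exists_rename_eq_of_vars_subset_range`; `eval_rename`).
-/

set_option autoImplicit false

open Filter Topology Set

namespace Pool.Agent.T2H66.CF

/-- The case of finitely many variables in decreasing order. -/
private theorem nonvan_fin {J : Type} [LinearOrder J] (V : Ultrafilter (J → ℕ)) (hV : Thin V)
    {F : Type} [Field F] (ε : ℕ → F) (hε : Function.Injective ε) :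
    ∀ (n : ℕ) (jd : Fin n → J), StrictAnti jd → ∀ (b : Fin n → (J → ℕ) → F),
      (∀ (d : Fin n) (e e' : J → ℕ), (∀ i < jd d, e i = e' i) → b d e = b d e') →
      ∀ g : Fin n → F, (∀ d, g d ≠ 0) → ∀ P : MvPolynomial (Fin n) F, P ≠ 0 →
      ∀ᶠ e in (V : Filter (J → ℕ)),
        MvPolynomial.eval (fun d => b d e + g d * ε (e (jd d))) P ≠ 0 := by
  classical
  intro n
  induction n with
  | zero =>
    intro jd _ b _ g _ P hP
    refine Eventually.of_forall fun e => ?_
    rw [MvPolynomial.eq_C_of_isEmpty P, MvPolynomial.eval_C]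
    intro h
    apply hP
    rw [MvPolynomial.eq_C_of_isEmpty P, h, MvPolynomial.C_0]
  | succ n ih =>
    intro jd hjd b hb g hg P hP
    set Q := MvPolynomial.finSuccEquiv F n P with hQ
    have hQ0 : Q ≠ 0 := by
      intro h
      apply hP
      exact (MvPolynomial.finSuccEquiv F n).injective (by rw [← hQ, h, map_zero])
    have hc0 : Q.leadingCoeff ≠ 0 := Polynomial.leadingCoeff_ne_zero.2 hQ0
    set v : (J → ℕ) → Fin n → F := fun e d => b d.succ e + g d.succ * ε (e (jd d.succ)) with hv
    have h1 : ∀ᶠ e in (V : Filter (J → ℕ)), MvPolynomial.eval (v e) Q.leadingCoeff ≠ 0 := by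
      apply ih (fun d => jd d.succ) (fun x y hxy => hjd (Fin.succ_lt_succ_iff.2 hxy))
        (fun d => b d.succ) (fun d e e' h => hb d.succ e e' h) (fun d => g d.succ)
        (fun d => hg d.succ) _ hc0
    set q : (J → ℕ) → Polynomial F := fun e => Q.map (MvPolynomial.eval (v e)) with hq
    set B : (J → ℕ) → Set ℕ := fun e => {k | q e ≠ 0 ∧ (q e).eval (b 0 e + g 0 * ε k) = 0}
      with hB
    have h2 : ∀ᶠ e in (V : Filter (J → ℕ)), e (jd 0) ∉ B e := by
      apply hV (jd 0) B
      · intro e
        by_cases hqe : q e = 0
        · have : B e = ∅ := by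
            ext k
            simp [hB, hqe]
          rw [this]
          exact Set.finite_empty
        · have hsub : B e ⊆ (fun k => b 0 e + g 0 * ε k) ⁻¹' ((q e).roots.toFinset : Set F) := by
            intro k hk
            simp only [Set.mem_preimage, Finset.mem_coe, Multiset.mem_toFinset]
            exact (Polynomial.mem_roots hqe).2 hk.2
          refine Set.Finite.subset (Set.Finite.preimage ?_ (Finset.finite_toSet _)) hsub
          intro x _ y _ hxy
          exact hε (mul_left_cancel₀ (hg 0) (add_left_cancel hxy))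
      · intro e e' h
        have e1 : b 0 e = b 0 e' := hb 0 e e' h
        have e2 : v e = v e' := by
          funext d
          have hlt : jd d.succ < jd 0 := hjd (Fin.succ_pos d)
          simp only [hv]
          rw [hb d.succ e e' (fun i hi => h i (hi.trans hlt)), h _ hlt]
        have e3 : q e = q e' := by
          simp only [hq]
          rw [e2]
        ext k
        simp only [hB, Set.mem_ofPred_eq]
        rw [e3, e1]
    filter_upwards [h1, h2] with e h3 h4
    have hqe : q e ≠ 0 := by
      intro h
      apply h3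
      have := congrArg (fun p => Polynomial.coeff p Q.natDegree) h
      simpa [hq, Polynomial.coeff_map] using this
    intro h5
    apply h4
    refine ⟨hqe, ?_⟩
    have h6 : (fun d => b d e + g d * ε (e (jd d))) =
        (Fin.cons (b 0 e + g 0 * ε (e (jd 0))) (v e) : Fin (n + 1) → F) := by
      funext d
      refine Fin.cases ?_ (fun d => ?_) d
      · simp
      · simp [hv]
    rw [h6, MvPolynomial.eval_eq_eval_mv_eval'] at h5
    exact h5

theorem nonvan {J : Type} [LinearOrder J] (V : Ultrafilter (J → ℕ)) (hV : Thin V)
    {D F : Type} [Field F] (jd : D → J) (hjd : Function.Injective jd) (ε : ℕ → F)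
    (hε : Function.Injective ε) (b : D → (J → ℕ) → F)
    (hb : ∀ (d : D) (e e' : J → ℕ), (∀ i < jd d, e i = e' i) → b d e = b d e')
    (g : D → F) (hg : ∀ d, g d ≠ 0) (P : MvPolynomial D F) (hP : P ≠ 0) :
    ∀ᶠ e in (V : Filter (J → ℕ)),
      MvPolynomial.eval (fun d => b d e + g d * ε (e (jd d))) P ≠ 0 := by
  classical
  set T : Finset J := P.vars.image jd with hT
  set o : Fin T.card ↪o J := T.orderEmbOfFin rfl with ho
  have hmem : ∀ i : Fin T.card, ∃ d ∈ P.vars, jd d = o (Fin.rev i) := by
    intro i
    exact Finset.mem_image.1 (Finset.orderEmbOfFin_mem T rfl (Fin.rev i))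
  choose r hr1 hr2 using hmem
  have hanti : StrictAnti (fun i => jd (r i)) := by
    intro x y hxy
    change jd (r y) < jd (r x)
    rw [hr2, hr2]
    exact o.strictMono (Fin.rev_lt_rev.2 hxy)
  have hinj : Function.Injective r := by
    intro x y hxy
    exact hanti.injective (by simp only [hxy])
  have hrange : (P.vars : Set D) ⊆ Set.range r := by
    intro d hd
    have h1 : jd d ∈ T := Finset.mem_image_of_mem jd hd
    have h2 : jd d ∈ Set.range o := by
      rw [ho, Finset.range_orderEmbOfFin]
      exact h1
    obtain ⟨j, hj⟩ := h2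
    refine ⟨Fin.rev j, hjd ?_⟩
    rw [hr2, Fin.rev_rev, hj]
  obtain ⟨Q, hQ⟩ := MvPolynomial.exists_rename_eq_of_vars_subset_range P r hinj hrange
  have hQ0 : Q ≠ 0 := by
    rintro rfl
    rw [map_zero] at hQ
    exact hP hQ.symm
  have h := nonvan_fin V hV ε hε T.card (fun i => jd (r i)) hanti (fun i => b (r i))
    (fun i e e' h => hb (r i) e e' h) (fun i => g (r i)) (fun i => hg (r i)) Q hQ0
  filter_upwards [h] with e he
  rw [← hQ, MvPolynomial.eval_rename]
  exact he

end Pool.Agent.T2H66.CF
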