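import Pool.Agent.T2H66.CF.Obj
import Pool.Agent.T2H66.CF.NV

/-!
# Package PH: the evaluations of the field of rational functions

Proof. For `w : Om` let `φ w : MvPolynomial (Dat J F) F →+* GMM V F` be `eval₂Hom` of the ring
homomorphism `a ↦ gm V (fun _ => a)` and of `d ↦ XX V jd ε d w`. By `MvPolynomial.induction_on`,
`φ w P = gm V (fun e => MvPolynomial.eval (fun d => xf jd ε d w e) P)`. By `nonvan` (with
`b d e = ff (d.b w) d.s e`, which depends only on the coordinates `d.s n < jd d`, and `g d = d.g w`) it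
is injective, and `φ w` extends to the field of fractions (`IsFractionRing.lift`).

Countable ranges: the set of all `x` such that there is a countable `R` with
`(Φ w x).LiftPred (· ∈ R)` for all `w` is closed under `+`, `*`, `-`, `⁻¹` (take the countable sets
`image2`), and contains the constants (`R = {a}`) and the `X d` (`R` = the sums of an element of the
range of `d.b` and of a product of an element of the countable range of `d.g` and of an `ε k`). Use
`IsFractionRing.div_surjective` and `MvPolynomial.induction_on`.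
-/

set_option autoImplicit false

open Filter Topology Set

namespace Pool.Agent.T2H66.CF

section germs

variable {Ξ F : Type} [Field F] {V : Ultrafilter Ξ}

/-- the constants -/
def cst (V : Ultrafilter Ξ) (F : Type) [Field F] : F →+* Germ (V : Filter Ξ) F where
  toFun a := ((a : F) : Germ (V : Filter Ξ) F)
  map_one' := rfl
  map_mul' _ _ := rfl
  map_zero' := rfl
  map_add' _ _ := rfl

theorem eval_germ {D : Type} (x : D → Ξ → F) (P : MvPolynomial D F) :
    MvPolynomial.eval₂ (cst V F) (fun d => ((x d : Ξ → F) : Germ (V : Filter Ξ) F)) P =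
      ((fun e => MvPolynomial.eval (fun d => x d e) P : Ξ → F) : Germ (V : Filter Ξ) F) := by
  induction P using MvPolynomial.induction_on with
  | C a =>
    rw [MvPolynomial.eval₂_C]
    simp only [MvPolynomial.eval_C]
    rfl
  | add p q hp hq =>
    rw [MvPolynomial.eval₂_add, hp, hq]
    simp only [map_add]
    rfl
  | mul_X p d hp =>
    rw [MvPolynomial.eval₂_mul, hp, MvPolynomial.eval₂_X]
    simp only [map_mul, MvPolynomial.eval_X]
    rfl

/-- values in a countable set -/
def CR {K : Type} [Field K] (Φ : Om → K →+* Germ (V : Filter Ξ) F) (x : K) : Prop :=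
  ∃ R : Set F, R.Countable ∧ ∀ w, (Φ w x).LiftPred (· ∈ R)

theorem CR.add {K : Type} [Field K] {Φ : Om → K →+* Germ (V : Filter Ξ) F} {x y : K}
    (hx : CR Φ x) (hy : CR Φ y) : CR Φ (x + y) := by
  obtain ⟨R, hR, h⟩ := hx
  obtain ⟨R', hR', h'⟩ := hy
  refine ⟨Set.image2 (· + ·) R R', hR.image2 hR' _, fun w => ?_⟩
  rw [map_add]
  have h1 := h w
  have h2 := h' w
  revert h1 h2
  generalize Φ w x = u
  generalize Φ w y = v
  induction u using Germ.inductionOn with
  | _ u =>
    induction v using Germ.inductionOn with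
    | _ v =>
      intro h1 h2
      exact Germ.liftPred_coe.2 (((Germ.liftPred_coe.1 h1).and (Germ.liftPred_coe.1 h2)).mono
        fun _ h => ⟨_, h.1, _, h.2, rfl⟩)

theorem CR.mul {K : Type} [Field K] {Φ : Om → K →+* Germ (V : Filter Ξ) F} {x y : K}
    (hx : CR Φ x) (hy : CR Φ y) : CR Φ (x * y) := by
  obtain ⟨R, hR, h⟩ := hx
  obtain ⟨R', hR', h'⟩ := hy
  refine ⟨Set.image2 (· * ·) R R', hR.image2 hR' _, fun w => ?_⟩
  rw [map_mul]
  have h1 := h w
  have h2 := h' w
  revert h1 h2
  generalize Φ w x = u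
  generalize Φ w y = v
  induction u using Germ.inductionOn with
  | _ u =>
    induction v using Germ.inductionOn with
    | _ v =>
      intro h1 h2
      exact Germ.liftPred_coe.2 (((Germ.liftPred_coe.1 h1).and (Germ.liftPred_coe.1 h2)).mono
        fun _ h => ⟨_, h.1, _, h.2, rfl⟩)

theorem CR.inv {K : Type} [Field K] {Φ : Om → K →+* Germ (V : Filter Ξ) F} {x : K}
    (hx : CR Φ x) : CR Φ x⁻¹ := by
  obtain ⟨R, hR, h⟩ := hx
  refine ⟨(fun a => a⁻¹) '' R, hR.image _, fun w => ?_⟩
  rw [map_inv₀]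
  have h1 := h w
  revert h1
  generalize Φ w x = u
  induction u using Germ.inductionOn with
  | _ u =>
    intro h1
    exact Germ.liftPred_coe.2 ((Germ.liftPred_coe.1 h1).mono fun _ h => ⟨_, h, rfl⟩)

end germs

/-- the evaluations of polynomials -/
noncomputable def ev {J F : Type} [Field F] (V : Ultrafilter (J → ℕ)) (jd : Dat J F → J)
    (ε : ℕ → F) (w : Om) : MvPolynomial (Dat J F) F →+* GMM V F :=
  MvPolynomial.eval₂Hom (cst V F) (fun d => XX V jd ε d w)

theorem ev_inj {J F : Type} [LinearOrder J] [Field F] (V : Ultrafilter (J → ℕ)) (hV : Thin V)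
    (jd : Dat J F → J) (hjd : Function.Injective jd) (hs : ∀ (d : Dat J F) (n : ℕ), d.s n < jd d)
    (ε : ℕ → F) (hε : Function.Injective ε) (w : Om) : Function.Injective (ev V jd ε w) := by
  rw [injective_iff_map_eq_zero]
  intro P hP
  by_contra hne
  have h1 := nonvan V hV jd hjd ε hε (fun d e => ff (d.b w) d.s e) (by
    intro d e e' h
    show d.b w (fun n => e (d.s n)) = d.b w (fun n => e' (d.s n))
    congr 1
    funext n
    exact h _ (hs d n)) (fun d => d.g w) (fun d => d.hg w) P hne
  have h2 : ev V jd ε w P = gm V (fun e => MvPolynomial.eval (fun d => xf jd ε d w e) P) :=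
    eval_germ (V := V) (fun d => xf jd ε d w) P
  rw [h2] at hP
  have h3 : ∀ᶠ e in (V : Filter (J → ℕ)), MvPolynomial.eval (fun d => xf jd ε d w e) P = 0 :=
    Germ.coe_eq.1 hP
  obtain ⟨e, he1, he2⟩ := (h1.and h3).exists
  exact he1 he2

theorem phi_aux {J F K : Type} [LinearOrder J] [Field F] [Field K] (V : Ultrafilter (J → ℕ))
    (hV : Thin V) (jd : Dat J F → J) (hjd : Function.Injective jd)
    (hs : ∀ (d : Dat J F) (n : ℕ), d.s n < jd d)
    (ε : ℕ → F) (hε : Function.Injective ε) [Algebra (MvPolynomial (Dat J F) F) K]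
    [IsFractionRing (MvPolynomial (Dat J F) F) K] :
    ∃ Φ : Om → K →+* GMM V F,
      (∀ w d, Φ w (algebraMap (MvPolynomial (Dat J F) F) K (MvPolynomial.X d)) = XX V jd ε d w) ∧
      (∀ w a, Φ w (algebraMap (MvPolynomial (Dat J F) F) K (MvPolynomial.C a)) =
        ((a : F) : Germ (V : Filter (J → ℕ)) F)) ∧
      ∀ x, ∃ R : Set F, R.Countable ∧ ∀ w, (Φ w x).LiftPred (· ∈ R) := by
  let Φ : Om → K →+* GMM V F := fun w =>
    IsFractionRing.lift (K := K) (ev_inj V hV jd hjd hs ε hε w)
  have hΦ : ∀ w P, Φ w (algebraMap (MvPolynomial (Dat J F) F) K P) = ev V jd ε w P := fun w P =>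
    IsFractionRing.lift_algebraMap _ P
  have hX : ∀ w d, Φ w (algebraMap (MvPolynomial (Dat J F) F) K (MvPolynomial.X d)) =
      XX V jd ε d w := by
    intro w d
    rw [hΦ]
    exact MvPolynomial.eval₂_X _ _ d
  have hC : ∀ w a, Φ w (algebraMap (MvPolynomial (Dat J F) F) K (MvPolynomial.C a)) =
      ((a : F) : Germ (V : Filter (J → ℕ)) F) := by
    intro w a
    rw [hΦ]
    exact MvPolynomial.eval₂_C _ _ a
  refine ⟨Φ, hX, hC, ?_⟩
  have hP : ∀ P, CR Φ (algebraMap (MvPolynomial (Dat J F) F) K P) := by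
    intro P
    induction P using MvPolynomial.induction_on with
    | C a =>
      refine ⟨{a}, Set.countable_singleton a, fun w => ?_⟩
      rw [hC]
      exact Germ.liftPred_const_iff.2 rfl
    | add p q hp hq =>
      rw [map_add]
      exact hp.add hq
    | mul_X p d hp =>
      rw [map_mul]
      refine hp.mul ?_
      refine ⟨(fun q : F × Om × ℕ => q.1 + d.g q.2.1 * ε q.2.2) ''
        ((Set.range fun p : Om × (ℕ → ℕ) => d.b p.1 p.2) ×ˢ (Set.univ : Set (Om × ℕ))),
        (d.hb.prod Set.countable_univ).image _, fun w => ?_⟩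
      rw [hX]
      refine gm_mem_nb.2 (Eventually.of_forall fun e => ?_)
      exact ⟨(_, w, e (jd d)), ⟨⟨(w, fun n => e (d.s n)), rfl⟩, Set.mem_univ _⟩, rfl⟩
  intro x
  obtain ⟨p, q, -, rfl⟩ := IsFractionRing.div_surjective (A := MvPolynomial (Dat J F) F) x
  rw [div_eq_mul_inv]
  exact (hP p).mul (hP q).inv

theorem exists_phi {J F : Type} [LinearOrder J] [Field F] (V : Ultrafilter (J → ℕ)) (hV : Thin V)
    (jd : Dat J F → J) (hjd : Function.Injective jd) (hs : ∀ (d : Dat J F) (n : ℕ), d.s n < jd d)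
    (ε : ℕ → F) (hε : Function.Injective ε) :
    ∃ Φ : Om → FractionRing (MvPolynomial (Dat J F) F) →+* GMM V F,
      (∀ w d, Φ w (algebraMap (MvPolynomial (Dat J F) F) (FractionRing (MvPolynomial (Dat J F) F))
        (MvPolynomial.X d)) = XX V jd ε d w) ∧
      (∀ w a, Φ w (algebraMap (MvPolynomial (Dat J F) F) (FractionRing (MvPolynomial (Dat J F) F))
        (MvPolynomial.C a)) = ((a : F) : Germ (V : Filter (J → ℕ)) F)) ∧
      ∀ x, ∃ R : Set F, R.Countable ∧ ∀ w, (Φ w x).LiftPred (· ∈ R) :=
  phi_aux V hV jd hjd hs ε hε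

end Pool.Agent.T2H66.CF
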