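import Pool.Agent.T2H66.CF.Defs

/-!
# Package TF: the topology of the field

The sets `W U δ = {x | Sm {w | ¬ (Φ w x).LiftPred (· ∈ U)} δ}` (`U ∈ 𝓝 0`, `δ > 0`) form a
`RingFilterBasis`, and the topology is a field topology. The proof is a simpler version of
`Pool/Agent/H918R5/TTOA.lean` (starting file; copy and adapt), where `Sm` (see `Sm.union`, `Sm.mono`,
`Sm.empty` in `Defs.lean`) replaces the measures, and where no exceptional sets for the identities
are needed, since the `Φ w` are ring homomorphisms to the field of germs (`map_add`, `map_mul`,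
`map_neg`, `map_inv₀`; `Germ (V : Filter Ξ) F` is a field as `V` is an ultrafilter). For
`mul_left'`: given `x₀, U`, take a countable `R` with `(Φ w x₀).LiftPred (· ∈ R)` for all `w` and
`V' ∈ 𝓝 0` with `r * v ∈ U` for `r ∈ R`, `v ∈ V'` (`CB F`): `x₀ * W V' δ ⊆ W U δ`. Facts on germs:
for `x, y` germs with `LiftPred (· ∈ U)`, `LiftPred (· ∈ V)`, write them as germs of functions
(`Germ.inductionOn`), then `filter_upwards`. For the Hausdorff property: if `x ≠ 0` then
`1 = x * x⁻¹`; or use `t_T2` of `Pool/Agent/H918R5/TT2.lean` (it suffices that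
`1 ∉ W U (1/2)` for a neighbourhood `U` of `0` with `1 ∉ U`, `not_sm_univ`). Embedding: `φ` is
injective, `F` and `K` are topological groups (`IsInducing` from the equality
`𝓝 0 = comap φ (𝓝 0)`, for example `IsTopologicalAddGroup.isInducing_iff_nhds_zero` or
`Topology.IsInducing` via `t_IND`, `t_CMP` of `H918R5`), and `φ a ∈ W U δ` iff `a ∈ U` for `0 < δ < 1`
(`Germ.liftPred_const_iff`).
-/

set_option autoImplicit false

open Filter Topology Set

namespace Pool.Agent.T2H66.CF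

section germs

variable {Ξ F : Type} [Field F] {V : Ultrafilter Ξ}

theorem lp_mono {x : Germ (V : Filter Ξ) F} {U U' : Set F} (h : x.LiftPred (· ∈ U)) (hU : U ⊆ U') :
    x.LiftPred (· ∈ U') := by
  induction x using Germ.inductionOn with
  | _ x => exact Germ.liftPred_coe.2 ((Germ.liftPred_coe.1 h).mono fun _ h => hU h)

theorem lp_add {x y : Germ (V : Filter Ξ) F} {U U' W : Set F} (h : x.LiftPred (· ∈ U))
    (h' : y.LiftPred (· ∈ U')) (hW : ∀ a ∈ U, ∀ b ∈ U', a + b ∈ W) :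
    (x + y).LiftPred (· ∈ W) := by
  induction x using Germ.inductionOn with
  | _ x =>
    induction y using Germ.inductionOn with
    | _ y =>
      exact Germ.liftPred_coe.2 (((Germ.liftPred_coe.1 h).and (Germ.liftPred_coe.1 h')).mono
        fun _ h => hW _ h.1 _ h.2)

theorem lp_mul {x y : Germ (V : Filter Ξ) F} {U U' W : Set F} (h : x.LiftPred (· ∈ U))
    (h' : y.LiftPred (· ∈ U')) (hW : ∀ a ∈ U, ∀ b ∈ U', a * b ∈ W) :
    (x * y).LiftPred (· ∈ W) := by
  induction x using Germ.inductionOn with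
  | _ x =>
    induction y using Germ.inductionOn with
    | _ y =>
      exact Germ.liftPred_coe.2 (((Germ.liftPred_coe.1 h).and (Germ.liftPred_coe.1 h')).mono
        fun _ h => hW _ h.1 _ h.2)

theorem lp_neg {x : Germ (V : Filter Ξ) F} {U W : Set F} (h : x.LiftPred (· ∈ U))
    (hW : ∀ a ∈ U, -a ∈ W) : (-x).LiftPred (· ∈ W) := by
  induction x using Germ.inductionOn with
  | _ x => exact Germ.liftPred_coe.2 ((Germ.liftPred_coe.1 h).mono fun _ h => hW _ h)

theorem lp_inv {x : Germ (V : Filter Ξ) F} {U W : Set F} (h : x.LiftPred (· ∈ U))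
    (hW : ∀ a ∈ U, (1 + a)⁻¹ - 1 ∈ W) : ((1 + x)⁻¹ - 1).LiftPred (· ∈ W) := by
  induction x using Germ.inductionOn with
  | _ x => exact Germ.liftPred_coe.2 ((Germ.liftPred_coe.1 h).mono fun _ h => hW _ h)

theorem lp_zero {U : Set F} (h : (0 : F) ∈ U) : (0 : Germ (V : Filter Ξ) F).LiftPred (· ∈ U) :=
  Germ.liftPred_coe.2 (Eventually.of_forall fun _ => h)

theorem lp_const {U : Set F} {a : F} :
    ((a : F) : Germ (V : Filter Ξ) F).LiftPred (· ∈ U) ↔ a ∈ U :=
  Germ.liftPred_const_iff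

end germs

section top

variable {Ξ F K : Type} [Field F] [TopologicalSpace F] {V : Ultrafilter Ξ} [Field K]

/-- the basic neighbourhoods -/
def W (Φ : Om → K →+* Germ (V : Filter Ξ) F) (U : Set F) (δ : ℝ) : Set K :=
  {x : K | Sm {w | ¬ (Φ w x).LiftPred (· ∈ U)} δ}

omit [TopologicalSpace F] in
theorem W_mono (Φ : Om → K →+* Germ (V : Filter Ξ) F) {U U' : Set F} {δ δ' : ℝ} (hU : U ⊆ U')
    (hδ : δ ≤ δ') : W Φ U δ ⊆ W Φ U' δ' := by
  intro x hx
  refine Sm.mono hx ?_ hδ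
  intro w hw h
  exact hw (lp_mono h hU)

/-- the filter basis -/
def basis [IsTopologicalDivisionRing F] (hF : CB F) (Φ : Om → K →+* Germ (V : Filter Ξ) F)
    (hR : ∀ x, ∃ R : Set F, R.Countable ∧ ∀ w, (Φ w x).LiftPred (· ∈ R)) :
    RingFilterBasis K where
  sets := {S | ∃ U ∈ 𝓝 (0 : F), ∃ δ : ℝ, 0 < δ ∧ S = W Φ U δ}
  nonempty := ⟨_, Set.univ, univ_mem, 1, one_pos, rfl⟩
  inter_sets := by
    rintro _ _ ⟨U, hU, ε, hε, rfl⟩ ⟨U', hU', δ, hδ, rfl⟩
    refine ⟨_, ⟨U ∩ U', inter_mem hU hU', min ε δ, lt_min hε hδ, rfl⟩, ?_⟩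
    exact Set.subset_inter (W_mono Φ Set.inter_subset_left (min_le_left _ _))
      (W_mono Φ Set.inter_subset_right (min_le_right _ _))
  zero' := by
    rintro _ ⟨U, hU, ε, hε, rfl⟩
    refine (Sm.empty hε.le).mono ?_ le_rfl
    intro w hw
    apply hw
    rw [map_zero]
    exact lp_zero (mem_of_mem_nhds hU)
  add' := by
    rintro _ ⟨U, hU, ε, hε, rfl⟩
    obtain ⟨U', hU', hUU⟩ := exists_nhds_zero_half hU
    refine ⟨_, ⟨U', hU', ε / 2, by linarith, rfl⟩, ?_⟩
    intro y hy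
    rw [Set.mem_add] at hy
    obtain ⟨z, hz, w, hw, rfl⟩ := hy
    refine (Sm.union hz hw).mono ?_ (by linarith)
    intro v hv
    by_contra hcon
    simp only [Set.mem_union, Set.mem_ofPred_eq, not_or, not_not] at hcon
    apply hv
    rw [map_add]
    exact lp_add hcon.1 hcon.2 hUU
  neg' := by
    rintro _ ⟨U, hU, ε, hε, rfl⟩
    have hU' : (fun x : F => -x) ⁻¹' U ∈ 𝓝 (0 : F) := by
      apply continuous_neg.continuousAt.preimage_mem_nhds
      rw [neg_zero]
      exact hU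
    refine ⟨_, ⟨_, hU', ε, hε, rfl⟩, ?_⟩
    intro z hz
    refine Sm.mono hz ?_ le_rfl
    intro v hv h
    apply hv
    rw [map_neg]
    exact lp_neg h fun a ha => ha
  conj' := by
    intro x0 U hU
    refine ⟨U, hU, ?_⟩
    intro x hx
    simpa using hx
  mul' := by
    rintro _ ⟨U, hU, ε, hε, rfl⟩
    have hm : (fun p : F × F => p.1 * p.2) ⁻¹' U ∈ 𝓝 ((0 : F), (0 : F)) := by
      apply continuous_mul.continuousAt.preimage_mem_nhds
      rw [mul_zero]
      exact hU
    rw [nhds_prod_eq, mem_prod_self_iff] at hm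
    obtain ⟨U', hU', hUU⟩ := hm
    refine ⟨_, ⟨U', hU', ε / 2, by linarith, rfl⟩, ?_⟩
    intro y hy
    rw [Set.mem_mul] at hy
    obtain ⟨z, hz, w, hw, rfl⟩ := hy
    refine (Sm.union hz hw).mono ?_ (by linarith)
    intro v hv
    by_contra hcon
    simp only [Set.mem_union, Set.mem_ofPred_eq, not_or, not_not] at hcon
    apply hv
    rw [map_mul]
    exact lp_mul hcon.1 hcon.2 fun a ha b hb => hUU (Set.mk_mem_prod ha hb)
  mul_left' := by
    rintro x0 _ ⟨U, hU, ε, hε, rfl⟩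
    obtain ⟨R, hRc, hR⟩ := hR x0
    obtain ⟨U', hU', hUU⟩ := hF R hRc U hU
    refine ⟨_, ⟨U', hU', ε, hε, rfl⟩, ?_⟩
    intro z hz
    refine Sm.mono hz ?_ le_rfl
    intro v hv h
    apply hv
    rw [map_mul]
    exact lp_mul (hR v) h hUU
  mul_right' := by
    rintro x0 _ ⟨U, hU, ε, hε, rfl⟩
    obtain ⟨R, hRc, hR⟩ := hR x0
    obtain ⟨U', hU', hUU⟩ := hF R hRc U hU
    refine ⟨_, ⟨U', hU', ε, hε, rfl⟩, ?_⟩
    intro z hz
    refine Sm.mono hz ?_ le_rfl
    intro v hv h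
    apply hv
    show (Φ v (z * x0)).LiftPred (· ∈ U)
    rw [mul_comm, map_mul]
    exact lp_mul (hR v) h hUU

omit [TopologicalSpace F] in
/-- `-1` is not a small element -/
theorem neg_one_ne (Φ : Om → K →+* Germ (V : Filter Ξ) F) (x : K)
    (hx : x ∈ W Φ ({-1}ᶜ : Set F) (1 / 2)) : 1 + x ≠ 0 := by
  intro h
  have hxe : x = -1 := by
    rw [eq_neg_iff_add_eq_zero, add_comm]
    exact h
  apply not_sm_univ (show (1 / 2 : ℝ) < 1 by norm_num)
  refine Sm.mono hx ?_ le_rfl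
  intro w _ hw
  rw [hxe, map_neg, map_one] at hw
  have h1 : ((-1 : F) : Germ (V : Filter Ξ) F).LiftPred (· ∈ ({-1}ᶜ : Set F)) := hw
  exact (lp_const.1 h1) rfl

theorem top_field {Ξ F K : Type} [Field F] [TopologicalSpace F] [IsTopologicalDivisionRing F]
    [T2Space F] (hF : CB F) (V : Ultrafilter Ξ) [Field K] (Φ : Om → K →+* Germ (V : Filter Ξ) F)
    (hR : ∀ x, ∃ R : Set F, R.Countable ∧ ∀ w, (Φ w x).LiftPred (· ∈ R)) :
    ∃ τ : TopologicalSpace K, @IsTopologicalDivisionRing K _ τ ∧ @T2Space K τ ∧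
      (∀ S : Set K, S ∈ @nhds K τ 0 ↔ ∃ U ∈ 𝓝 (0 : F), ∃ δ : ℝ, 0 < δ ∧
        {x : K | Sm {w | ¬ (Φ w x).LiftPred (· ∈ U)} δ} ⊆ S) ∧
      ∀ φ : F →+* K, (∀ w a, Φ w (φ a) = ((a : F) : Germ (V : Filter Ξ) F)) →
        @Topology.IsEmbedding F K _ τ φ := by
  set B : RingFilterBasis K := basis hF Φ hR with hB
  let τ : TopologicalSpace K := B.topology
  have hring : IsTopologicalRing K := B.isTopologicalRing
  have hnhds : ∀ S : Set K, S ∈ 𝓝 (0 : K) ↔ ∃ U ∈ 𝓝 (0 : F), ∃ ε : ℝ, 0 < ε ∧ W Φ U ε ⊆ S := by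
    intro S
    rw [AddGroupFilterBasis.nhds_zero_eq, FilterBasis.mem_filter_iff]
    constructor
    · rintro ⟨_, ⟨U, hU, ε, hε, rfl⟩, hS⟩
      exact ⟨U, hU, ε, hε, hS⟩
    · rintro ⟨U, hU, ε, hε, hS⟩
      exact ⟨_, ⟨U, hU, ε, hε, rfl⟩, hS⟩
  -- inversion at one
  have hinv1 : Tendsto (fun x : K => x⁻¹) (𝓝 1) (𝓝 1) := by
    have key : Tendsto (fun x : K => (1 + x)⁻¹ - 1) (𝓝 0) (𝓝 0) := by
      intro S hS
      rw [hnhds] at hS
      obtain ⟨U, hU, ε, hε, hS⟩ := hS
      rw [mem_map, hnhds]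
      have hc : Tendsto (fun x : F => (1 + x)⁻¹ - 1) (𝓝 0) (𝓝 0) := by
        have h1 : ContinuousAt (fun x : F => (1 + x)⁻¹ - 1) 0 := by
          apply ContinuousAt.sub _ continuousAt_const
          apply ContinuousAt.inv₀
          · exact (continuous_const.add continuous_id).continuousAt
          · simp
        have h2 := h1.tendsto
        simpa using h2
      refine ⟨_, hc hU, ε, hε, ?_⟩
      intro x hx
      apply hS
      refine Sm.mono hx ?_ le_rfl
      intro w hw h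
      apply hw
      rw [map_sub, map_inv₀, map_add, map_one]
      exact lp_inv h fun a ha => ha
    have h1 : Tendsto (fun x : K => (1 + (x - 1))⁻¹ - 1 + 1) (𝓝 1) (𝓝 (0 + 1)) := by
      have h2 : Tendsto (fun x : K => x - 1) (𝓝 1) (𝓝 0) := by
        have : Tendsto (fun x : K => x - 1) (𝓝 1) (𝓝 (1 - 1)) :=
          (continuous_id.sub continuous_const).tendsto 1
        rwa [sub_self] at this
      exact (key.comp h2).add tendsto_const_nhds
    simpa using h1
  have hdiv : IsTopologicalDivisionRing K := by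
    refine { toIsTopologicalRing := hring, continuousAt_inv₀ := ?_ }
    intro x hx
    have h1 : Tendsto (fun y : K => x⁻¹ * y) (𝓝 x) (𝓝 1) := by
      have : Tendsto (fun y : K => x⁻¹ * y) (𝓝 x) (𝓝 (x⁻¹ * x)) :=
        (continuous_const.mul continuous_id).tendsto x
      rwa [inv_mul_cancel₀ hx] at this
    have h2 : Tendsto (fun y : K => (x⁻¹ * y)⁻¹ * x⁻¹) (𝓝 x) (𝓝 (1 * x⁻¹)) :=
      (hinv1.comp h1).mul tendsto_const_nhds
    have h3 : (fun y : K => (x⁻¹ * y)⁻¹ * x⁻¹) = fun y => y⁻¹ := by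
      funext y
      rw [mul_inv, inv_inv, mul_comm x, mul_assoc, mul_inv_cancel₀ hx, mul_one]
    rw [h3, one_mul] at h2
    exact h2
  have ht2 : T2Space K := by
    refine IsTopologicalAddGroup.t2Space_of_zero_sep fun x hx => ?_
    have hU : ({1}ᶜ : Set F) ∈ 𝓝 (0 : F) :=
      isOpen_compl_singleton.mem_nhds (by simp)
    have hW : W Φ ({1}ᶜ : Set F) (1 / 2) ∈ 𝓝 (0 : K) :=
      (hnhds _).2 ⟨_, hU, 1 / 2, by norm_num, subset_rfl⟩
    refine ⟨(fun y => x⁻¹ * y) ⁻¹' (W Φ ({1}ᶜ : Set F) (1 / 2)), ?_, ?_⟩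
    · have hc : Tendsto (fun y : K => x⁻¹ * y) (𝓝 0) (𝓝 (x⁻¹ * 0)) :=
        (continuous_const.mul continuous_id).tendsto 0
      rw [mul_zero] at hc
      exact hc hW
    · intro h
      have h2 : x⁻¹ * x ∈ W Φ ({1}ᶜ : Set F) (1 / 2) := h
      rw [inv_mul_cancel₀ hx] at h2
      apply not_sm_univ (show (1 / 2 : ℝ) < 1 by norm_num)
      refine Sm.mono h2 ?_ le_rfl
      intro w _ hw
      rw [map_one] at hw
      have h1 : ((1 : F) : Germ (V : Filter Ξ) F).LiftPred (· ∈ ({1}ᶜ : Set F)) := hw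
      exact (lp_const.1 h1) rfl
  refine ⟨τ, hdiv, ht2, hnhds, ?_⟩
  intro φ hφ
  have hind : Topology.IsInducing φ := by
    refine ⟨?_⟩
    have h2 : IsTopologicalAddGroup K := inferInstance
    have h3 : @IsTopologicalAddGroup F (τ.induced φ) _ := topologicalAddGroup_induced φ
    refine @IsTopologicalAddGroup.ext F _ _ (τ.induced φ) inferInstance h3 ?_
    rw [@nhds_induced _ _ τ φ 0, map_zero]
    ext S
    rw [Filter.mem_comap]
    constructor
    · intro hS
      refine ⟨W Φ S (1 / 2), (hnhds _).2 ⟨S, hS, 1 / 2, by norm_num, subset_rfl⟩, ?_⟩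
      intro a ha
      by_contra hcon
      apply not_sm_univ (show (1 / 2 : ℝ) < 1 by norm_num)
      refine Sm.mono ha ?_ le_rfl
      intro w _ hw
      rw [hφ] at hw
      exact hcon (lp_const.1 hw)
    · rintro ⟨T, hT, hTS⟩
      obtain ⟨U, hU, δ, hδ, hUT⟩ := (hnhds _).1 hT
      refine mem_of_superset hU fun a ha => ?_
      apply hTS
      apply hUT
      refine (Sm.empty hδ.le).mono ?_ le_rfl
      intro w hw
      apply hw
      rw [hφ]
      exact lp_const.2 ha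
  exact ⟨hind, φ.injective⟩

end top

end Pool.Agent.T2H66.CF
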