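import Pool.Agent.T2H66.CF.Defs

/-!
# Package UL: the ultrafilter

Proof. Let `s` be the family of all sets `{e | e j ∉ B e}` with `j, B` as in `Thin`. By
`Filter.generate_neBot_iff` and `Ultrafilter.of` (`Ultrafilter.of_le`) it suffices to show that each
finite subfamily `t ⊆ s` has a common element. Choose `j_S, B_S` for the `S ∈ t`. Show by
`Finset.induction_on_max` on the finite set `T ⊆ J`: there is `e` such that for all `S ∈ t` with
`j_S ∈ T`, `e (j_S) ∉ B_S e`. Step: `T ∪ {j}` with `j` larger than all elements of `T`; take `e` for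
`T`, the set `⋃_{S ∈ t} B_S e` is finite, let `n` be not in this set, and take
`e' = Function.update e j n`. If `j_S ∈ T` then `B_S e' = B_S e` as `e' = e` below `j_S < j`, and
`e' (j_S) = e (j_S)`. If `j_S = j` then `B_S e' = B_S e` as well, and `e' j = n ∉ B_S e`.
-/

set_option autoImplicit false

open Filter Topology Set

namespace Pool.Agent.T2H66.CF

/-- the basic sets -/
def bas (J : Type) [LinearOrder J] : Set (Set (J → ℕ)) :=
  {S | ∃ (j : J) (B : (J → ℕ) → Set ℕ), (∀ e, (B e).Finite) ∧
    (∀ e e' : J → ℕ, (∀ i < j, e i = e' i) → B e = B e') ∧ S = {e | e j ∉ B e}}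

theorem fip (J : Type) [LinearOrder J] (t : Set (Set (J → ℕ))) (ht : t ⊆ bas J) (hf : t.Finite) :
    (⋂₀ t).Nonempty := by
  classical
  have ht' : ∀ S : t, ∃ (j : J) (B : (J → ℕ) → Set ℕ), (∀ e, (B e).Finite) ∧
    (∀ e e' : J → ℕ, (∀ i < j, e i = e' i) → B e = B e') ∧ S.1 = {e | e j ∉ B e} := fun S => ht S.2
  choose j B hB hdep hS using ht'
  have : Finite t := hf
  have : Fintype t := Fintype.ofFinite t
  have key : ∀ T : Finset J, ∃ e : J → ℕ, ∀ S : t, j S ∈ T → e (j S) ∉ B S e := by
    intro T
    induction T using Finset.induction_on_max with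
    | empty => exact ⟨fun _ => 0, fun S h => absurd h (Finset.notMem_empty _)⟩
    | insert k T hk ih =>
      obtain ⟨e, he⟩ := ih
      have hfin : (⋃ S : t, B S e).Finite := Set.finite_iUnion fun S => hB S e
      obtain ⟨n, hn⟩ := hfin.exists_notMem
      refine ⟨Function.update e k n, fun S hS' => ?_⟩
      rcases Finset.mem_insert.1 hS' with h | h
      · have h1 : B S (Function.update e k n) = B S e := by
          apply hdep
          intro i hi
          rw [h] at hi
          exact Function.update_of_ne hi.ne _ _
        rw [h1, h, Function.update_self]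
        intro hc
        exact hn (Set.mem_iUnion.2 ⟨S, hc⟩)
      · have hlt := hk _ h
        have h1 : B S (Function.update e k n) = B S e := by
          apply hdep
          intro i hi
          exact Function.update_of_ne (hi.trans hlt).ne _ _
        rw [h1, Function.update_of_ne hlt.ne]
        exact he S h
  obtain ⟨e, he⟩ := key (Finset.univ.image j)
  refine ⟨e, fun S hSt => ?_⟩
  have h1 := he ⟨S, hSt⟩ (Finset.mem_image_of_mem _ (Finset.mem_univ _))
  have h2 : S = _ := hS ⟨S, hSt⟩
  rw [h2]
  exact h1

theorem exists_thin (J : Type) [LinearOrder J] : ∃ V : Ultrafilter (J → ℕ), Thin V := by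
  have hne : (Filter.generate (bas J)).NeBot := by
    rw [Filter.generate_neBot_iff]
    exact fun t ht hf => fip J t ht hf
  refine ⟨Ultrafilter.of (Filter.generate (bas J)), ?_⟩
  intro j B hB hdep
  apply Ultrafilter.of_le (Filter.generate (bas J))
  exact Filter.mem_generate_of_mem ⟨j, B, hB, hdep, rfl⟩

end Pool.Agent.T2H66.CF
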