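import Pool.Agent.T2H66.CF.CN3
import Pool.Agent.T2H66.CF.UL
import Pool.Agent.T2H66.CF.IX
import Pool.Agent.T2H66.CF.TF
import Pool.Agent.T2H66.CF.OB1
import Pool.Agent.T2H66.CF.OB2
import Pool.Agent.T2H66.CF.PH

/-!
# The main theorem (assembly)
-/

set_option autoImplicit false

open Filter Topology Set

namespace Pool.Agent.T2H66.CF

variable {J F : Type} [LinearOrder J] [Nonempty J] [Field F] [TopologicalSpace F]
  [IsTopologicalDivisionRing F]

/-- the concrete system -/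
def sys (V : Ultrafilter (J → ℕ)) (hV : Thin V) (hF : CB F)
    (hnd : ∀ U ∈ 𝓝 (0 : F), ∃ x ∈ U, x ≠ 0) (jd : Dat J F → J) (ε : ℕ → F) :
    Sys (GMM V F) (Dat J F) where
  UU := {S | ∃ U ∈ 𝓝 (0 : F), S = nb V U}
  AA := Adm V F
  X := XX V jd ε
  zero_mem := by
    rintro _ ⟨U, hU, rfl⟩
    exact gm_mem_nb.2 (Eventually.of_forall fun _ => mem_of_mem_nhds hU)
  nonempty := ⟨_, univ, univ_mem, rfl⟩
  inter := by
    rintro _ ⟨U, hU, rfl⟩ _ ⟨U', hU', rfl⟩
    refine ⟨_, ⟨U ∩ U', inter_mem hU hU', rfl⟩, fun x hx => ?_, fun x hx => ?_⟩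
    · induction x using Germ.inductionOn with
      | _ x => exact gm_mem_nb.2 ((gm_mem_nb.1 hx).mono fun _ h => h.1)
    · induction x using Germ.inductionOn with
      | _ x => exact gm_mem_nb.2 ((gm_mem_nb.1 hx).mono fun _ h => h.2)
  half := by
    rintro _ ⟨U, hU, rfl⟩
    obtain ⟨U', hU', h⟩ := exists_nhds_zero_half hU
    refine ⟨_, ⟨U', hU', rfl⟩, fun x hx y hy => ?_⟩
    induction x using Germ.inductionOn with
    | _ x =>
      induction y using Germ.inductionOn with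
      | _ y =>
        refine gm_mem_nb.2 (((gm_mem_nb.1 hx).and (gm_mem_nb.1 hy)).mono fun e he => ?_)
        exact h _ he.1 _ he.2
  pw := adm_pw V
  add := adm_add V
  sub := adm_sub V
  X_mem := adm_XX V jd ε
  dens := by
    intro a ha U hU
    choose U' hU' h using hU
    obtain ⟨d, hd⟩ := adm_dens V hF hnd jd ε a ha U' hU'
    refine ⟨d, fun n => ?_⟩
    rw [h n]
    exact hd n
  sat := by
    intro a U ha hU hUU hCl
    choose U' hU' h using hU
    obtain ⟨b, hb, hb'⟩ := adm_sat V hV a U' ha hU' (fun n x hx y hy => by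
      have h1 := hUU n (gm V fun _ => x) (by
        rw [h (n + 1)]
        exact gm_mem_nb.2 (Eventually.of_forall fun _ => hx)) (gm V fun _ => y) (by
        rw [h (n + 1)]
        exact gm_mem_nb.2 (Eventually.of_forall fun _ => hy))
      rw [← gm_add, h n] at h1
      obtain ⟨_, h2⟩ := (gm_mem_nb.1 h1).exists
      exact h2) (fun n => by rw [← h n]; exact hCl n)
    refine ⟨b, hb, fun n => ?_⟩
    rw [h n]
    exact hb' n

/-- an injective sequence in a nondiscrete field -/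
theorem exists_inj [T2Space F] (hnd : ∀ U ∈ 𝓝 (0 : F), ∃ x ∈ U, x ≠ 0) :
    ∃ ε : ℕ → F, Function.Injective ε := by
  have : Infinite F := by
    by_contra hfin
    have : Finite F := not_infinite_iff_finite.1 hfin
    have : DiscreteTopology F := inferInstance
    obtain ⟨x, hx, hx0⟩ := hnd {0} (by simp)
    exact hx0 hx
  exact ⟨Infinite.natEmbedding F, (Infinite.natEmbedding F).injective⟩

/-- connectedness of a field from a system -/
theorem conn_of {K : Type} [Field K] [TopologicalSpace K] [IsTopologicalDivisionRing K]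
    {L ι : Type} [AddCommGroup L] (S : Sys L ι) (X : ι → K)
    (h : ∀ W ∈ 𝓝 (0 : K), ∃ U ∈ S.UU, ∃ δ : ℝ, 0 < δ ∧ ∀ i i',
      Sm {w | S.X i' w - S.X i w ∉ U} δ → X i' - X i ∈ W) (d0 d1 : ι) (hd : X d0 ≠ X d1) :
    ConnectedSpace K := by
  have hX : X d1 - X d0 ≠ 0 := sub_ne_zero.2 fun h => hd h.symm
  have hpre : PreconnectedSpace K := by
    rw [preconnectedSpace_iff_clopen]
    intro s hs
    by_contra hcon
    push Not at hcon
    obtain ⟨hne, hnu⟩ := hcon
    obtain ⟨x, hx⟩ := hne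
    obtain ⟨y, hy⟩ := (Set.ne_univ_iff_exists_notMem s).1 hnu
    let A : K → K := fun z => x + (y - x) * ((z - X d0) * (X d1 - X d0)⁻¹)
    have hA : Continuous A := by fun_prop
    classical
    let f : ι → Bool := fun d => decide (A (X d) ∈ s)
    have hf : LC S f := by
      intro d
      have hcl : IsClopen (A ⁻¹' s) := hs.preimage hA
      obtain ⟨W, hW, hWs⟩ : ∃ W ∈ 𝓝 (0 : K), ∀ z, z - X d ∈ W → (A z ∈ s ↔ A (X d) ∈ s) := by
        have h6 : Tendsto (fun v : K => v + X d) (𝓝 0) (𝓝 (X d)) := by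
          have h7 : Continuous fun v : K => v + X d := by fun_prop
          have h8 := h7.tendsto 0
          rwa [zero_add] at h8
        by_cases hds : A (X d) ∈ s
        · have h5 : A ⁻¹' s ∈ 𝓝 (X d) := hcl.isOpen.mem_nhds hds
          refine ⟨_, h6 h5, fun z hz => ?_⟩
          have h9 : z - X d + X d ∈ A ⁻¹' s := hz
          rw [sub_add_cancel] at h9
          exact ⟨fun _ => hds, fun _ => h9⟩
        · have h5 : (A ⁻¹' s)ᶜ ∈ 𝓝 (X d) := hcl.compl.isOpen.mem_nhds hds
          refine ⟨_, h6 h5, fun z hz => ?_⟩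
          have h9 : z - X d + X d ∈ (A ⁻¹' s)ᶜ := hz
          rw [sub_add_cancel] at h9
          exact ⟨fun h => absurd h h9, fun h => absurd h hds⟩
      obtain ⟨U, hU, δ, hδ, hW'⟩ := h W hW
      exact ⟨U, hU, δ, hδ, fun d' hd' => decide_eq_decide.2 (hWs _ (hW' d d' hd'))⟩
    have h5 := conn S hf d0 d1
    have h6 : A (X d0) = x := by
      simp [A]
    have h7 : A (X d1) = y := by
      simp only [A]
      rw [mul_inv_cancel₀ hX]
      ring
    have h8 : f d0 = true := by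
      simp only [f, h6]
      exact decide_eq_true hx
    have h9 : f d1 = false := by
      simp only [f, h7]
      exact decide_eq_false hy
    rw [h8, h9] at h5
    exact Bool.noConfusion h5
  exact @ConnectedSpace.mk K _ hpre ⟨0⟩

/-- the main theorem for a general field with evaluations -/
theorem main_aux {F : Type} [Field F] [TopologicalSpace F] [IsTopologicalDivisionRing F]
    [T2Space F] (hF : CB F) (hnd : ∀ U ∈ 𝓝 (0 : F), ∃ x ∈ U, x ≠ 0)
    {J : Type} [LinearOrder J] [Nonempty J] (V : Ultrafilter (J → ℕ)) (hV : Thin V)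
    (jd : Dat J F → J) (ε : ℕ → F) (K : Type) [Field K] (X : Dat J F → K)
    (hX : Function.Injective X) (C : F →+* K) (Φ : Om → K →+* GMM V F)
    (hΦX : ∀ w d, Φ w (X d) = XX V jd ε d w)
    (hΦC : ∀ w a, Φ w (C a) = ((a : F) : Germ (V : Filter (J → ℕ)) F))
    (hΦR : ∀ x, ∃ R : Set F, R.Countable ∧ ∀ w, (Φ w x).LiftPred (· ∈ R)) :
    ∃ _ : TopologicalSpace K, IsTopologicalDivisionRing K ∧
      T2Space K ∧ ConnectedSpace K ∧ Topology.IsEmbedding C := by
  obtain ⟨τ, h1, h2, h3, h4⟩ := top_field hF V Φ hΦR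
  have hJn : Nonempty J := inferInstance
  obtain ⟨j⟩ := hJn
  let d0 : Dat J F := ⟨fun _ => 1, fun _ _ => 0, fun _ => j, fun _ => one_ne_zero,
    (Set.countable_singleton (0 : F)).mono (by rintro _ ⟨_, rfl⟩; rfl)⟩
  let d1 : Dat J F := ⟨fun _ => 1, fun _ _ => 1, fun _ => j, fun _ => one_ne_zero,
    (Set.countable_singleton (1 : F)).mono (by rintro _ ⟨_, rfl⟩; rfl)⟩
  have hd : d0 ≠ d1 := by
    intro h
    have h2 : d0.b = d1.b := congrArg Dat.b h
    have h3 := congrFun (congrFun h2 ⟨1, 0⟩) (fun _ => 0)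
    exact zero_ne_one h3
  refine ⟨τ, h1, h2, ?_, h4 C hΦC⟩
  refine conn_of (sys V hV hF hnd jd ε) X ?_ d0 d1 (fun h => hd (hX h))
  intro W hW
  obtain ⟨U, hU, δ, hδ, hW'⟩ := (h3 W).1 hW
  refine ⟨nb V U, ⟨U, hU, rfl⟩, δ, hδ, fun d d' hd' => ?_⟩
  apply hW'
  refine hd'.mono ?_ le_rfl
  intro w hw hw'
  apply hw
  have h6 : Φ w (X d' - X d) = XX V jd ε d' w - XX V jd ε d w := by
    rw [map_sub, hΦX, hΦX]
  rw [h6]
  exact hw'

/-- **the main theorem** -/
theorem main (F : Type) [Field F] [TopologicalSpace F] [IsTopologicalDivisionRing F] [T2Space F]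
    (hF : CB F) (hnd : ∀ U ∈ 𝓝 (0 : F), ∃ x ∈ U, x ≠ 0) :
    ∃ (K : Type) (_ : Field K) (_ : TopologicalSpace K), IsTopologicalDivisionRing K ∧
      T2Space K ∧ ConnectedSpace K ∧ ∃ g : F →+* K, Topology.IsEmbedding g := by
  obtain ⟨ε, hε⟩ := exists_inj hnd
  obtain ⟨J, hJ, jd0, hJn, hjd0, hs0⟩ := exists_index ((Om → F) × (Om → (ℕ → ℕ) → F))
  obtain ⟨V, hV⟩ := exists_thin J
  have hjd : Function.Injective (fun d : Dat J F => jd0 ((d.g, d.b), d.s)) := by
    intro d d' h
    have h1 := hjd0 h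
    cases d
    cases d'
    simp only [Prod.mk.injEq] at h1
    obtain ⟨⟨h1, h2⟩, h3⟩ := h1
    subst h1 h2 h3
    rfl
  obtain ⟨Φ, hΦX, hΦC, hΦR⟩ := exists_phi V hV (fun d : Dat J F => jd0 ((d.g, d.b), d.s)) hjd
    (fun d n => hs0 _ _ n) ε hε
  have hXinj : Function.Injective (fun d : Dat J F => algebraMap (MvPolynomial (Dat J F) F)
      (FractionRing (MvPolynomial (Dat J F) F)) (MvPolynomial.X d)) := fun d d' h =>
    MvPolynomial.X_injective
      (IsFractionRing.injective (MvPolynomial (Dat J F) F) (FractionRing (MvPolynomial (Dat J F) F)) h)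
  obtain ⟨τ, h1, h2, h3, h4⟩ := main_aux hF hnd V hV _ ε _ _ hXinj
    ((algebraMap (MvPolynomial (Dat J F) F)
      (FractionRing (MvPolynomial (Dat J F) F))).comp MvPolynomial.C) Φ hΦX hΦC hΦR
  exact ⟨_, _, τ, h1, h2, h3, _, h4⟩

end Pool.Agent.T2H66.CF
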