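import Pool.Agent.T2H66.CF.Defs

/-!
# The concrete objects

`GMM V F` is the field of the germs along the ultrafilter `V` of functions `(J → ℕ) → F`. An
admissible function `a : Om → GMM V F` is given by a sequence `s : ℕ → J` and by
`b : Om → (ℕ → ℕ) → F` with countable range: `a w` is the germ of `e ↦ b w (e ∘ s)`. The
transcendental element with the data `d = (g, b, s)` is `w ↦ b w (e ∘ s) + g w * ε (e (jd d))`.
-/

set_option autoImplicit false

open Filter Topology Set

namespace Pool.Agent.T2H66.CF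

/-- countable range -/
def Ctb {F : Type} (b : Om → (ℕ → ℕ) → F) : Prop :=
  (Set.range fun p : Om × (ℕ → ℕ) => b p.1 p.2).Countable

/-- the data of a transcendental element -/
structure Dat (J F : Type) [Field F] where
  /-- the amplitude -/
  g : Om → F
  /-- the center -/
  b : Om → (ℕ → ℕ) → F
  /-- the coordinates on which the center depends -/
  s : ℕ → J
  hg : ∀ w, g w ≠ 0
  hb : Ctb b

/-- the germs -/
abbrev GMM {J : Type} (V : Ultrafilter (J → ℕ)) (F : Type) : Type :=
  Germ (V : Filter (J → ℕ)) F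

/-- the germ of a function -/
def gm {J : Type} (V : Ultrafilter (J → ℕ)) {F : Type} (x : (J → ℕ) → F) : GMM V F :=
  (x : Germ (V : Filter (J → ℕ)) F)

/-- the function `e ↦ b (e ∘ s)` -/
def ff {J F : Type} (b : (ℕ → ℕ) → F) (s : ℕ → J) (e : J → ℕ) : F := b fun n => e (s n)

/-- the function of a transcendental element -/
def xf {J F : Type} [Field F] (jd : Dat J F → J) (ε : ℕ → F) (d : Dat J F) (w : Om) (e : J → ℕ) :
    F :=
  ff (d.b w) d.s e + d.g w * ε (e (jd d))

/-- the transcendental elements -/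
def XX {J F : Type} [Field F] (V : Ultrafilter (J → ℕ)) (jd : Dat J F → J) (ε : ℕ → F)
    (d : Dat J F) (w : Om) : GMM V F :=
  gm V (xf jd ε d w)

/-- the admissible functions -/
def Adm {J : Type} (V : Ultrafilter (J → ℕ)) (F : Type) : Set (Om → GMM V F) :=
  {a | ∃ (s : ℕ → J) (b : Om → (ℕ → ℕ) → F), Ctb b ∧ ∀ w, a w = gm V (ff (b w) s)}

/-- the germs with values in `U` -/
def nb {J : Type} (V : Ultrafilter (J → ℕ)) {F : Type} (U : Set F) : Set (GMM V F) :=
  {x | x.LiftPred (· ∈ U)}

theorem gm_mem_nb {J : Type} {V : Ultrafilter (J → ℕ)} {F : Type} {U : Set F} {x : (J → ℕ) → F} :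
    gm V x ∈ nb V U ↔ ∀ᶠ e in (V : Filter (J → ℕ)), x e ∈ U :=
  Germ.liftPred_coe

theorem gm_add {J : Type} (V : Ultrafilter (J → ℕ)) {F : Type} [Field F] (x y : (J → ℕ) → F) :
    gm V (fun e => x e + y e) = gm V x + gm V y := rfl

theorem gm_sub {J : Type} (V : Ultrafilter (J → ℕ)) {F : Type} [Field F] (x y : (J → ℕ) → F) :
    gm V (fun e => x e - y e) = gm V x - gm V y := rfl

theorem gm_mul {J : Type} (V : Ultrafilter (J → ℕ)) {F : Type} [Field F] (x y : (J → ℕ) → F) :
    gm V (fun e => x e * y e) = gm V x * gm V y := rfl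

theorem gm_congr {J : Type} (V : Ultrafilter (J → ℕ)) {F : Type} {x y : (J → ℕ) → F}
    (h : ∀ᶠ e in (V : Filter (J → ℕ)), x e = y e) : gm V x = gm V y :=
  Germ.coe_eq.2 h

end Pool.Agent.T2H66.CF
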