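import Pool.Agent.T2H66.CF.Fin
import Pool.Agent.H918R5.Fin

/-!
# V-topological fields

A V-topological field is either first countable (and then its completion is a field) or its
countable subsets are bounded.
-/

set_option autoImplicit false

open Filter Topology Set

namespace Pool.Agent.T2H66.CF

/-- the V-topologies -/
def VTop (F : Type) [Field F] [TopologicalSpace F] : Prop :=
  ∀ U ∈ 𝓝 (0 : F), ∃ V ∈ 𝓝 (0 : F), ∀ x y : F, x * y ∈ V → x ∈ U ∨ y ∈ U

section

variable {F : Type} [Field F] [TopologicalSpace F] [IsTopologicalDivisionRing F]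

theorem exists_mul_subset {U : Set F} (hU : U ∈ 𝓝 (0 : F)) :
    ∃ W ∈ 𝓝 (0 : F), ∀ x ∈ W, ∀ y ∈ W, x * y ∈ U := by
  have hm : (fun p : F × F => p.1 * p.2) ⁻¹' U ∈ 𝓝 ((0 : F), (0 : F)) := by
    apply continuous_mul.continuousAt.preimage_mem_nhds
    rw [mul_zero]
    exact hU
  rw [nhds_prod_eq, mem_prod_self_iff] at hm
  obtain ⟨W, hW, h⟩ := hm
  exact ⟨W, hW, fun x hx y hy => h (Set.mk_mem_prod hx hy)⟩

theorem const_mul_mem {U : Set F} (hU : U ∈ 𝓝 (0 : F)) (a : F) :
    {x : F | a * x ∈ U} ∈ 𝓝 (0 : F) := by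
  have h : Tendsto (fun x : F => a * x) (𝓝 0) (𝓝 (a * 0)) :=
    (continuous_const.mul continuous_id).tendsto 0
  rw [mul_zero] at h
  exact h hU

/-- in a V-topological field which is not first countable, countable subsets are bounded -/
theorem cb_of_vtop (hV : VTop F) (hnc : ¬ (𝓝 (0 : F)).IsCountablyGenerated) : CB F := by
  intro R hR U hU
  by_contra hcon
  push Not at hcon
  apply hnc
  obtain ⟨W₀, hW₀, hW⟩ := exists_mul_subset hU
  have hne : R.Nonempty := by
    obtain ⟨r, hr, -⟩ := hcon univ univ_mem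
    exact ⟨r, hr⟩
  obtain ⟨s, rfl⟩ := hR.exists_eq_range hne
  have hmem : ∀ n, {x : F | s n * x ∈ W₀} ∈ 𝓝 (0 : F) := fun n => const_mul_mem hW₀ (s n)
  -- the sets `{x | s n * x ∈ W₀}` are a basis
  have hb : ∀ T : Set F, T ∈ 𝓝 (0 : F) ↔ ∃ n, {x : F | s n * x ∈ W₀} ⊆ T := by
    intro T
    constructor
    · intro hT
      obtain ⟨V, hV', h⟩ := hV (T ∩ W₀) (inter_mem hT hW₀)
      obtain ⟨_, ⟨n, rfl⟩, v, hv, hnv⟩ := hcon V hV'
      refine ⟨n, fun x hx => ?_⟩
      have hs : s n ≠ 0 := by
        intro h0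
        rw [h0, zero_mul] at hnv
        exact hnv (mem_of_mem_nhds hU)
      by_cases hx0 : x = 0
      · rw [hx0]
        exact mem_of_mem_nhds hT
      have h1 : x * (v * x⁻¹) = v := by
        rw [mul_comm, mul_assoc, inv_mul_cancel₀ hx0, mul_one]
      have h2 : x * (v * x⁻¹) ∈ V := by
        rw [h1]
        exact hv
      rcases h _ _ h2 with h3 | h3
      · exact h3.1
      · exfalso
        apply hnv
        have h4 : s n * v = (v * x⁻¹) * (s n * x) := by
          field_simp
        rw [h4]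
        exact hW _ h3.2 _ hx
    · rintro ⟨n, hn⟩
      exact mem_of_superset (hmem n) hn
  have hB : (𝓝 (0 : F)).HasBasis (fun _ : ℕ => True) (fun n => {x : F | s n * x ∈ W₀}) :=
    ⟨fun T => by rw [hb T]; simp⟩
  exact hB.isCountablyGenerated

end

/-- inversion in a V-topological field -/
theorem completable {F : Type} [Field F] [UniformSpace F] [IsUniformAddGroup F]
    [IsTopologicalDivisionRing F] [T2Space F] (hV : VTop F) : CompletableTopField F where
  nice := by
    intro G hG h0
    obtain ⟨U, hU, A, hA, hUA⟩ : ∃ U ∈ 𝓝 (0 : F), ∃ A ∈ G, U ∩ A = ∅ := by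
      have h1 : (∅ : Set F) ∈ 𝓝 (0 : F) ⊓ G := by
        rw [h0]
        exact mem_bot
      obtain ⟨U, hU, A, hA, h2⟩ := Filter.mem_inf_iff.1 h1
      exact ⟨U, hU, A, hA, h2.symm⟩
    have hbd : ∀ W ∈ 𝓝 (0 : F), ∃ V ∈ 𝓝 (0 : F), ∀ x ∉ U, ∀ v ∈ V, x⁻¹ * v ∈ W := by
      intro W hW
      obtain ⟨V, hV', h⟩ := hV (U ∩ W) (inter_mem hU hW)
      refine ⟨V, hV', fun x hx v hv => ?_⟩
      have hx0 : x ≠ 0 := by
        intro h
        rw [h] at hx
        exact hx (mem_of_mem_nhds hU)
      have h1 : x * (x⁻¹ * v) ∈ V := by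
        rw [mul_inv_cancel_left₀ hx0]
        exact hv
      rcases h _ _ h1 with h2 | h2
      · exact absurd h2.1 hx
      · exact h2.2
    have hne := hG.1
    refine ⟨hne.map _, ?_⟩
    rw [uniformity_eq_comap_nhds_zero F]
    rw [← Filter.tendsto_iff_comap, Filter.prod_map_map_eq, Filter.tendsto_map'_iff]
    intro W hW
    obtain ⟨V₁, hV₁, h1⟩ := hbd W hW
    obtain ⟨V₂, hV₂, h2⟩ := hbd V₁ hV₁
    have h3 : {p : F × F | p.2 - p.1 ∈ (fun x : F => -x) ⁻¹' V₂} ∈ uniformity F := by
      rw [uniformity_eq_comap_nhds_zero F]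
      have h4 : (fun x : F => -x) ⁻¹' V₂ ∈ 𝓝 (0 : F) := by
        apply continuous_neg.continuousAt.preimage_mem_nhds
        rw [neg_zero]
        exact hV₂
      exact ⟨_, h4, fun p hp => hp⟩
    have h4 := hG.2 h3
    have h5 : A ×ˢ A ∈ G ×ˢ G := Filter.prod_mem_prod hA hA
    rw [Filter.mem_map]
    filter_upwards [h4, h5] with p hp hpA
    have hA1 : p.1 ∉ U := fun h => by
      have : p.1 ∈ U ∩ A := ⟨h, hpA.1⟩
      rw [hUA] at this
      exact this
    have hA2 : p.2 ∉ U := fun h => by
      have : p.2 ∈ U ∩ A := ⟨h, hpA.2⟩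
      rw [hUA] at this
      exact this
    have hp1 : p.1 ≠ 0 := fun h => hA1 (by rw [h]; exact mem_of_mem_nhds hU)
    have hp2 : p.2 ≠ 0 := fun h => hA2 (by rw [h]; exact mem_of_mem_nhds hU)
    have h6 : p.1 - p.2 ∈ V₂ := by
      have : -(p.2 - p.1) ∈ V₂ := hp
      rwa [neg_sub] at this
    have h7 := h1 _ hA1 _ (h2 _ hA2 _ h6)
    have h8 : p.1⁻¹ * (p.2⁻¹ * (p.1 - p.2)) = p.2⁻¹ - p.1⁻¹ := by
      field_simp
    rw [h8] at h7
    exact h7

theorem first_countable_completion {F : Type} [Field F] [UniformSpace F] [IsUniformAddGroup F]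
    [IsTopologicalDivisionRing F] (hc : (𝓝 (0 : F)).IsCountablyGenerated) :
    FirstCountableTopology (UniformSpace.Completion F) := by
  have di : IsDenseInducing ((↑) : F → UniformSpace.Completion F) :=
    UniformSpace.Completion.isDenseInducing_coe
  obtain ⟨V, hVb⟩ := (𝓝 (0 : F)).exists_antitone_basis
  have h0 : ((0 : F) : UniformSpace.Completion F) = 0 := UniformSpace.Completion.coe_zero
  have hB : (𝓝 (0 : UniformSpace.Completion F)).HasBasis (fun _ : ℕ => True)
      (fun n => closure ((↑) '' V n)) := by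
    refine ⟨fun T => ?_⟩
    constructor
    · intro hT
      obtain ⟨T', hT', hcl, hTT⟩ := exists_mem_nhds_isClosed_subset hT
      have h1 : ((↑) : F → UniformSpace.Completion F) ⁻¹' T' ∈ 𝓝 (0 : F) := by
        apply (UniformSpace.Completion.continuous_coe F).continuousAt.preimage_mem_nhds
        rw [h0]
        exact hT'
      obtain ⟨n, hn⟩ := hVb.1.mem_iff.1 h1
      refine ⟨n, trivial, (closure_minimal ?_ hcl).trans hTT⟩
      rintro _ ⟨x, hx, rfl⟩
      exact hn.2 hx
    · rintro ⟨n, -, hn⟩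
      refine mem_of_superset ?_ hn
      rw [← h0]
      exact di.closure_image_mem_nhds (hVb.1.mem_of_mem trivial)
  have hcg : (𝓝 (0 : UniformSpace.Completion F)).IsCountablyGenerated := hB.isCountablyGenerated
  have hu : (uniformity (UniformSpace.Completion F)).IsCountablyGenerated := by
    rw [uniformity_eq_comap_nhds_zero]
    infer_instance
  exact UniformSpace.firstCountableTopology _

/-- the first countable case -/
theorem vtop_first (F : Type) [Field F] [tF : TopologicalSpace F] [hD : IsTopologicalDivisionRing F]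
    [hT : T2Space F] (hV : VTop F) (hc : (𝓝 (0 : F)).IsCountablyGenerated) :
    ∃ (K : Type) (_ : Field K) (_ : TopologicalSpace K), IsTopologicalDivisionRing K ∧
      T2Space K ∧ ConnectedSpace K ∧ ∃ g : F →+* K, Topology.IsEmbedding g := by
  let u : UniformSpace F := IsTopologicalAddGroup.rightUniformSpace F
  have hu : IsUniformAddGroup F := isUniformAddGroup_of_addCommGroup
  have hcomp : CompletableTopField F := completable hV
  refine Pool.Agent.H918R5.final F (Or.inr ⟨Unit, fun _ => UniformSpace.Completion F,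
    fun _ => inferInstance, fun _ => inferInstance, fun _ => inferInstance,
    fun _ => inferInstance, fun _ => inferInstance,
    fun _ => first_countable_completion hc, fun _ => inferInstance,
    fun _ => UniformSpace.Completion.coeRingHom, ?_⟩)
  rw [iInf_const]
  exact (UniformSpace.Completion.isUniformInducing_coe F).isInducing.eq_induced

/-- **fields whose countable subsets are bounded** (also the discrete ones) -/
theorem main_cb (F : Type) [Field F] [TopologicalSpace F] [IsTopologicalDivisionRing F]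
    [T2Space F] (hF : CB F) :
    ∃ (K : Type) (_ : Field K) (_ : TopologicalSpace K), IsTopologicalDivisionRing K ∧
      T2Space K ∧ ConnectedSpace K ∧ ∃ g : F →+* K, Topology.IsEmbedding g := by
  by_cases hnd : ∀ U ∈ 𝓝 (0 : F), ∃ x ∈ U, x ≠ 0
  · exact main F hF hnd
  · push Not at hnd
    obtain ⟨U, hU, h⟩ := hnd
    have h1 : {(0 : F)} ∈ 𝓝 (0 : F) := mem_of_superset hU fun x hx => h x hx
    have := Pool.Agent.H918R5.discrete_of_zero h1
    exact Pool.Agent.H918R5.conn_discrete F

/-- **V-topological fields** -/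
theorem main_vtop (F : Type) [Field F] [TopologicalSpace F] [IsTopologicalDivisionRing F]
    [T2Space F] (hV : VTop F) :
    ∃ (K : Type) (_ : Field K) (_ : TopologicalSpace K), IsTopologicalDivisionRing K ∧
      T2Space K ∧ ConnectedSpace K ∧ ∃ g : F →+* K, Topology.IsEmbedding g := by
  by_cases hc : (𝓝 (0 : F)).IsCountablyGenerated
  · exact vtop_first F hV hc
  · exact main_cb F (cb_of_vtop hV hc)

end Pool.Agent.T2H66.CF
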